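import Pool.Agent.T2h55.Engel.Final

set_option autoImplicit false

open Set Filter Topology Manifold ContDiff VectorField Bundle

namespace Pool.Agent.T2h55.Engel

/-- the differential of the projection, in coordinates, is the linear part of a group element -/
theorem df_proj_eq (p : E4) : ∃ g : HW, (df (proj HW) p : E4 →L[ℝ] E4) = g.A := by
  have he := chart_ev (chart_mem_atlas E4 (proj HW p)) (mem_chart_source E4 (proj HW p))
  obtain ⟨g, -, hg⟩ := local_eq he.1 he.2
  refine ⟨g, ?_⟩
  have h1 : MDifferentiableAt (𝓡 4) (𝓡 4) (proj HW) p := (LDAp p).mdifferentiableAt (by simp)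
  have h2 : (df (proj HW) p : E4 →L[ℝ] E4) =
      fderivWithin ℝ (writtenInExtChartAt (𝓡 4) (𝓡 4) p (proj HW)) (range (𝓡 4))
        (extChartAt (𝓡 4) p p) := by
    unfold df mfderiv
    exact if_pos h1
  rw [h2]
  have h3 : writtenInExtChartAt (𝓡 4) (𝓡 4) p (proj HW) =ᶠ[𝓝 p] fun y => g • y := by
    filter_upwards [hg] with y hy
    exact hy
  have h4 : range (𝓡 4) = univ := by simp
  have h5 : extChartAt (𝓡 4) p p = p := rfl
  rw [h4, fderivWithin_univ, h5, h3.fderiv_eq]
  exact (g.hasFDerivAt_smul p).fderiv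

theorem A_inner (g : HW) (u v : E4) : inner ℝ (g.A u) (g.A v) = inner ℝ u v := by
  rw [PiLp.inner_apply, PiLp.inner_apply]
  refine Finset.sum_congr rfl fun i _ => ?_
  have h : ((g.s i : ℤ) : ℝ) * g.s i = 1 := by exact_mod_cast g.s_sq i
  rw [HW.A_apply, HW.A_apply]
  simp
  linear_combination (v i * u i) * h

/-- the inner product as a continuous bilinear map -/
noncomputable def ip : E4 →L[ℝ] E4 →L[ℝ] ℝ := innerSL ℝ (E := E4)

theorem ip_apply (u v : E4) : ip u v = inner ℝ u v := rfl

theorem symmL_eq {x y : M4} (hy : y ∈ (chartAt E4 x).source) (v : E4) :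
    ((trivializationAt E4 (TangentSpace (𝓡 4)) x).symmL ℝ y v : E4) =
        df (proj HW) (chartAt E4 x y) v := by
  have h1 := TangentBundle.symmL_trivializationAt (I := 𝓡 4) hy
  rw [h1]
  have h2 : ((extChartAt (𝓡 4) x).symm : E4 → M4) = proj HW := by
    funext z
    exact (atlas_spec (chart_mem_atlas E4 x)).2 z
  have h4 : range (𝓡 4) = univ := by simp
  rw [h4, mfderivWithin_univ]
  have h5 : extChartAt (𝓡 4) x y = chartAt E4 x y := rfl
  rw [h5, h2]
  rfl

set_option backward.isDefEq.respectTransparency false in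
/-- the flat Riemannian metric -/
noncomputable def flat : ContMDiffRiemannianMetric (𝓡 4) ∞ E4
    (fun x : M4 => TangentSpace (𝓡 4) x) where
  inner _ := ip
  symm _ v w := real_inner_comm (F := E4) _ _
  pos _ v hv := real_inner_self_pos (F := E4).2 hv
  isVonNBounded x := by
    change Bornology.IsVonNBounded ℝ {v : E4 | inner ℝ v v < 1}
    have : Metric.ball (0 : E4) 1 = {v : E4 | inner ℝ v v < 1} := by
      ext v
      simp only [Metric.mem_ball, dist_zero_right, norm_eq_sqrt_re_inner (𝕜 := ℝ),
        RCLike.re_to_real, Set.mem_ofPred_eq]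
      conv_lhs => rw [show (1 : ℝ) = √1 by simp]
      rw [Real.sqrt_lt_sqrt_iff]
      exact real_inner_self_nonneg
    rw [← this]
    exact NormedSpace.isVonNBounded_ball ℝ E4 1
  contMDiff := by
    intro x
    rw [contMDiffAt_section]
    have h : ContMDiffAt (𝓡 4) 𝓘(ℝ, E4 →L[ℝ] E4 →L[ℝ] ℝ) ∞
      (fun _ : M4 => ip) x := contMDiffAt_const
    refine h.congr_of_eventuallyEq ?_
    filter_upwards [(chartAt E4 x).open_source.mem_nhds (mem_chart_source E4 x)] with y hy
    ext v w
    obtain ⟨g, hg⟩ := df_proj_eq (chartAt E4 x y)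
    have hb : y ∈ (trivializationAt (E4 →L[ℝ] ℝ)
        (fun x : M4 => TangentSpace (𝓡 4) x →L[ℝ] Bundle.Trivial M4 ℝ x) x).baseSet := by
      rw [hom_trivializationAt_baseSet]
      exact ⟨hy, by simp⟩
    simp only [hom_trivializationAt_apply, ContinuousLinearMap.inCoordinates,
      ContinuousLinearMap.comp_apply, Trivialization.continuousLinearMapAt_apply]
    rw [Trivialization.coe_linearMapAt_of_mem _ hb]
    simp only [hom_trivializationAt_apply, ContinuousLinearMap.inCoordinates]
    change (Trivialization.continuousLinearMapAt ℝ (trivializationAt ℝ (Bundle.Trivial M4 ℝ) x) y)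
      ((ip ((trivializationAt E4 (TangentSpace (𝓡 4)) x).symmL ℝ y v : E4))
        ((trivializationAt E4 (TangentSpace (𝓡 4)) x).symmL ℝ y w : E4)) = ip v w
    rw [symmL_eq hy, symmL_eq hy]
    have e1 : ∀ u : E4, (df (proj HW) (chartAt E4 x y) u : E4) = g.A u := fun u =>
      congrArg (fun L : E4 →L[ℝ] E4 => L u) hg
    have e2 : ip (df (proj HW) (chartAt E4 x y) v : E4) (df (proj HW) (chartAt E4 x y) w : E4) =
        ip v w := by
      rw [e1, e1]
      exact A_inner g v w
    rw [e2]
    simp

end Pool.Agent.T2h55.Engel
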