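import Pool.Agent.T2h55.Engel.Plain

set_option autoImplicit false

open Set Filter Topology Manifold ContDiff VectorField

namespace Pool.Agent.T2h55.Engel

/-- determinant of the functionals -/
noncomputable def dt (p a b : E4) : ℝ := l1 a * l2 p b - l1 b * l2 p a
/-- dual frame, first vector -/
noncomputable def z1 (p a b : E4) : E4 := (dt p a b)⁻¹ • (l2 p b • a - l2 p a • b)
/-- dual frame, second vector -/
noncomputable def z2 (p a b : E4) : E4 := (dt p a b)⁻¹ • (l1 a • b - l1 b • a)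

theorem l1_z1 {p a b : E4} (h : dt p a b ≠ 0) : l1 (z1 p a b) = 1 := by
  rw [z1, l1_smul, l1_sub, l1_smul, l1_smul]
  rw [show l2 p b * l1 a - l2 p a * l1 b = dt p a b by unfold dt; ring]
  exact inv_mul_cancel₀ h
theorem l2_z1 {p a b : E4} : l2 p (z1 p a b) = 0 := by
  rw [z1, l2_smul, l2_sub, l2_smul, l2_smul]
  ring
theorem l1_z2 {p a b : E4} : l1 (z2 p a b) = 0 := by
  rw [z2, l1_smul, l1_sub, l1_smul, l1_smul]
  ring
theorem l2_z2 {p a b : E4} (h : dt p a b ≠ 0) : l2 p (z2 p a b) = 1 := by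
  rw [z2, l2_smul, l2_sub, l2_smul, l2_smul]
  rw [show l1 a * l2 p b - l1 b * l2 p a = dt p a b by unfold dt; ring]
  exact inv_mul_cancel₀ h

theorem contDiffAt_l1 {V : E4 → E4} {p : E4} (h : ContDiffAt ℝ ∞ V p) :
    ContDiffAt ℝ ∞ (fun y => l1 (V y)) p := (contDiffAt_euclidean.1 h) 2

theorem contDiffAt_coord (j : Fin 4) (p : E4) : ContDiffAt ℝ ∞ (fun y : E4 => y j) p :=
  (contDiffAt_euclidean.1 (contDiffAt_id (𝕜 := ℝ) (n := ∞) (x := p))) j

theorem contDiffAt_l2 {V : E4 → E4} {p : E4} (h : ContDiffAt ℝ ∞ V p) :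
    ContDiffAt ℝ ∞ (fun y => l2 y (V y)) p := by
  unfold l2
  have h0 := (contDiffAt_euclidean.1 h) 0
  have h1 := (contDiffAt_euclidean.1 h) 1
  have h2 : ContDiffAt ℝ ∞ (fun y : E4 => 2 * Real.pi * y 2) p :=
    contDiffAt_const.mul (contDiffAt_coord 2 p)
  exact ((Real.contDiff_sin.contDiffAt.comp p h2).mul h0).add
    ((Real.contDiff_cos.contDiffAt.comp p h2).mul h1)

theorem contDiffAt_dt {a b : E4 → E4} {p : E4} (ha : ContDiffAt ℝ ∞ a p)
    (hb : ContDiffAt ℝ ∞ b p) : ContDiffAt ℝ ∞ (fun y => dt y (a y) (b y)) p :=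
  ((contDiffAt_l1 ha).mul (contDiffAt_l2 hb)).sub ((contDiffAt_l1 hb).mul (contDiffAt_l2 ha))

theorem contDiffAt_z1 {a b : E4 → E4} {p : E4} (ha : ContDiffAt ℝ ∞ a p)
    (hb : ContDiffAt ℝ ∞ b p) (h : dt p (a p) (b p) ≠ 0) :
    ContDiffAt ℝ ∞ (fun y => z1 y (a y) (b y)) p :=
  ((contDiffAt_dt ha hb).inv h).smul
    (((contDiffAt_l2 hb).smul ha).sub ((contDiffAt_l2 ha).smul hb))

theorem contDiffAt_z2 {a b : E4 → E4} {p : E4} (ha : ContDiffAt ℝ ∞ a p)
    (hb : ContDiffAt ℝ ∞ b p) (h : dt p (a p) (b p) ≠ 0) :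
    ContDiffAt ℝ ∞ (fun y => z2 y (a y) (b y)) p :=
  ((contDiffAt_dt ha hb).inv h).smul
    (((contDiffAt_l1 ha).smul hb).sub ((contDiffAt_l1 hb).smul ha))

/-- transversality to the complement of `ξ` -/
def Transv (D : PF) : Prop :=
  ∀ p (v : E4), v ∈ D p → l1 v = 0 → l2 p v = 0 → v = 0

theorem Transv.uniq {D : PF} (h : Transv D) {p v w : E4}
    (hv : v ∈ D p) (hw : w ∈ D p) (h1 : l1 v = l1 w)
    (h2 : l2 p v = l2 p w) : v = w := by
  have := h p (v - w) (sub_mem hv hw) (by rw [l1_sub, h1, sub_self]) (by rw [l2_sub, h2, sub_self])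
  exact sub_eq_zero.1 this

theorem Transv.dt_ne {D : PF} (h : Transv D) {p a b : E4}
    (ha : a ∈ D p) (hb : b ∈ D p)
    (hl : LinearIndependent ℝ ![a, b]) : dt p a b ≠ 0 := by
  intro h0
  rw [LinearIndependent.pair_iff] at hl
  have w1 : l2 p b • a - l2 p a • b = 0 := by
    refine h p _ (sub_mem (Submodule.smul_mem _ _ ha) (Submodule.smul_mem _ _ hb)) ?_ ?_
    · rw [l1_sub, l1_smul, l1_smul, ← h0]; unfold dt; ring
    · rw [l2_sub, l2_smul, l2_smul]; ring
  have w2 : l1 a • b - l1 b • a = 0 := by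
    refine h p _ (sub_mem (Submodule.smul_mem _ _ hb) (Submodule.smul_mem _ _ ha)) ?_ ?_
    · rw [l1_sub, l1_smul, l1_smul]; ring
    · rw [l2_sub, l2_smul, l2_smul, ← h0]; unfold dt; ring
  have e1 := hl (l2 p b) (-l2 p a) (by rw [← w1]; module)
  have e2 := hl (-l1 b) (l1 a) (by rw [← w2]; module)
  have a0 : a = 0 := h p a ha e2.2 (by linarith [e1.2])
  have := hl 1 0 (by rw [a0]; simp)
  exact one_ne_zero this.1

/-- the frame of a transverse rank 2 distribution -/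
structure Fr (D : PF) (Y₁ Y₂ : E4 → E4) : Prop where
  m1 : ∀ p, Y₁ p ∈ D p
  m2 : ∀ p, Y₂ p ∈ D p
  a1 : ∀ p, l1 (Y₁ p) = 1
  a2 : ∀ p, l2 p (Y₁ p) = 0
  b1 : ∀ p, l1 (Y₂ p) = 0
  b2 : ∀ p, l2 p (Y₂ p) = 1

theorem pair_eq (X : Fin 2 → E4 → E4) (y : E4) : (fun i => X i y) = ![X 0 y, X 1 y] := by
  funext i
  fin_cases i <;> rfl

theorem exists_frame {D : PF} (hD : PD 2 D) (h : Transv D) :
    ∃ Y₁ Y₂ : E4 → E4, Fr D Y₁ Y₂ ∧ ContDiff ℝ ∞ Y₁ ∧ ContDiff ℝ ∞ Y₂ := by
  -- data at a point near `p`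
  have key : ∀ (X : Fin 2 → E4 → E4) (y : E4), LinearIndependent ℝ (fun i => X i y) →
      Submodule.span ℝ (range fun i => X i y) = D y →
      dt y (X 0 y) (X 1 y) ≠ 0 ∧ z1 y (X 0 y) (X 1 y) ∈ D y ∧
        z2 y (X 0 y) (X 1 y) ∈ D y := by
    intro X y hl hs
    have m0 : X 0 y ∈ D y := by
      rw [← hs]; exact Submodule.subset_span ⟨0, rfl⟩
    have m1 : X 1 y ∈ D y := by
      rw [← hs]; exact Submodule.subset_span ⟨1, rfl⟩
    have hl' : LinearIndependent ℝ (![X 0 y, X 1 y] : Fin 2 → E4) := by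
      rw [← pair_eq]; exact hl
    refine ⟨h.dt_ne m0 m1 hl', ?_, ?_⟩
    · exact Submodule.smul_mem _ _ (sub_mem (Submodule.smul_mem _ _ m0) (Submodule.smul_mem _ _ m1))
    · exact Submodule.smul_mem _ _ (sub_mem (Submodule.smul_mem _ _ m1) (Submodule.smul_mem _ _ m0))
  have ex : ∀ p, ∃ v w : E4, v ∈ D p ∧ w ∈ D p ∧
      l1 v = 1 ∧ l2 p v = 0 ∧ l1 w = 0 ∧ l2 p w = 1 := by
    intro p
    obtain ⟨X, hX⟩ := hD p
    obtain ⟨_, hl, hs⟩ := hX.self_of_nhds
    obtain ⟨k1, k2, k3⟩ := key X p hl hs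
    exact ⟨_, _, k2, k3, l1_z1 k1, l2_z1, l1_z2, l2_z2 k1⟩
  choose Y₁ Y₂ h1 h2 h3 h4 h5 h6 using ex
  refine ⟨Y₁, Y₂, ⟨h1, h2, h3, h4, h5, h6⟩, contDiff_iff_contDiffAt.2 fun p => ?_,
    contDiff_iff_contDiffAt.2 fun p => ?_⟩
  · obtain ⟨X, hX⟩ := hD p
    have hp := hX.self_of_nhds
    have s0 := hp.1 0
    have s1 := hp.1 1
    refine (contDiffAt_z1 s0 s1 (key X p hp.2.1 hp.2.2).1).congr_of_eventuallyEq ?_
    filter_upwards [hX] with y hy
    obtain ⟨k1, k2, k3⟩ := key X y hy.2.1 hy.2.2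
    exact h.uniq (h1 y) k2 (by rw [h3, l1_z1 k1]) (by rw [h4, l2_z1])
  · obtain ⟨X, hX⟩ := hD p
    have hp := hX.self_of_nhds
    have s0 := hp.1 0
    have s1 := hp.1 1
    refine (contDiffAt_z2 s0 s1 (key X p hp.2.1 hp.2.2).1).congr_of_eventuallyEq ?_
    filter_upwards [hX] with y hy
    obtain ⟨k1, k2, k3⟩ := key X y hy.2.1 hy.2.2
    exact h.uniq (h2 y) k3 (by rw [h5, l1_z2]) (by rw [h6, l2_z2 k1])

theorem Fr.expand {D : PF} {Y₁ Y₂ : E4 → E4} (hF : Fr D Y₁ Y₂) (h : Transv D)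
    {p v : E4} (hv : v ∈ D p) : v = l1 v • Y₁ p + l2 p v • Y₂ p := by
  refine h.uniq hv (add_mem (Submodule.smul_mem _ _ (hF.m1 p)) (Submodule.smul_mem _ _ (hF.m2 p)))
    ?_ ?_
  · rw [l1_add, l1_smul, l1_smul, hF.a1, hF.b1]; ring
  · rw [l2_add, l2_smul, l2_smul, hF.a2, hF.b2]; ring

/-- the bracket field is spanned by the frame and its bracket -/
theorem Fr.bracket_eq {D : PF} {Y₁ Y₂ : E4 → E4} (hF : Fr D Y₁ Y₂) (h : Transv D)
    (c1 : ContDiff ℝ ∞ Y₁) (c2 : ContDiff ℝ ∞ Y₂) (p : E4) :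
    pbr D p = Submodule.span ℝ ({Y₁ p, Y₂ p, lieBracket ℝ Y₁ Y₂ p} : Set E4) := by
  have d1 : DifferentiableAt ℝ Y₁ p := (c1.differentiable (by simp)) p
  have d2 : DifferentiableAt ℝ Y₂ p := (c2.differentiable (by simp)) p
  apply le_antisymm
  · refine sup_le ?_ (Submodule.span_le.2 ?_)
    · intro v hv
      rw [hF.expand h hv]
      exact add_mem (Submodule.smul_mem _ _ (Submodule.subset_span (by simp)))
        (Submodule.smul_mem _ _ (Submodule.subset_span (by simp)))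
    · rintro v ⟨V, W, hV, hW, rfl⟩
      have e : ∀ {V : E4 → E4}, PSec D p V → V =ᶠ[𝓝 p] fun y =>
          l1 (V y) • Y₁ y + l2 y (V y) • Y₂ y := by
        intro V hV
        filter_upwards [hV] with y hy
        exact hF.expand h hy.2
      rw [Filter.EventuallyEq.lieBracket_vectorField_eq (e hV) (e hW)]
      have sV := hV.self_of_nhds.1
      have sW := hW.self_of_nhds.1
      exact lie_comb ((contDiffAt_l1 sV).differentiableAt (by simp))
        ((contDiffAt_l2 sV).differentiableAt (by simp))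
        ((contDiffAt_l1 sW).differentiableAt (by simp))
        ((contDiffAt_l2 sW).differentiableAt (by simp)) d1 d2
  · refine Submodule.span_le.2 ?_
    have s1 : PSec D p Y₁ := Eventually.of_forall fun y => ⟨c1.contDiffAt, hF.m1 y⟩
    have s2 : PSec D p Y₂ := Eventually.of_forall fun y => ⟨c2.contDiffAt, hF.m2 y⟩
    rintro v (rfl | rfl | rfl)
    · exact Submodule.mem_sup_left (hF.m1 p)
    · exact Submodule.mem_sup_left (hF.m2 p)
    · exact Submodule.mem_sup_right (Submodule.subset_span ⟨_, _, s1, s2, rfl⟩)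

/-- the frame of a rank 3 field spanned by three vectors is independent -/
theorem li3 {E : PF} (hE : PD 3 E) {a b c : E4 → E4} {p : E4}
    (h : E p = Submodule.span ℝ ({a p, b p, c p} : Set E4)) :
    LinearIndependent ℝ ![a p, b p, c p] := by
  obtain ⟨X, hX⟩ := hE p
  obtain ⟨_, hl, hs⟩ := hX.self_of_nhds
  rw [linearIndependent_iff_card_eq_finrank_span, Set.finrank, range3, ← h, ← hs,
    finrank_span_eq_card hl]

/-- the key computation for rank 3 fields -/
theorem rank3 {E : PF} {a b c : E4 → E4} (ca : ContDiff ℝ ∞ a) (cb : ContDiff ℝ ∞ b)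
    (cc : ContDiff ℝ ∞ c) (hE : ∀ p, E p = Submodule.span ℝ ({a p, b p, c p} : Set E4))
    (hl : ∀ p, LinearIndependent ℝ ![a p, b p, c p]) (p : E4)
    (hab : D4 (a p) (b p) (c p) (lieBracket ℝ a b p) = 0)
    (hac : D4 (a p) (b p) (c p) (lieBracket ℝ a c p) = 0)
    (hbc : D4 (a p) (b p) (c p) (lieBracket ℝ b c p) = 0) : pbr E p ≠ ⊤ := by
  set θ : E4 → (E4 →L[ℝ] ℝ) := fun y => th (a y) (b y) (c y) with hθ
  have dθ : DifferentiableAt ℝ θ p :=
    (contDiffAt_th ca.contDiffAt cb.contDiffAt cc.contDiffAt).differentiableAt (by simp)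
  -- the differential of the relation `θ(V) = 0`
  have rel : ∀ V : E4 → E4, PSec E p V → ∀ u, θ p (fderiv ℝ V p u) = -(fderiv ℝ θ p u) (V p) := by
    intro V hV u
    have dV : DifferentiableAt ℝ V p := hV.self_of_nhds.1.differentiableAt (by simp)
    have h1 : HasFDerivAt (fun y => θ y (V y)) _ p := dθ.hasFDerivAt.clm_apply dV.hasFDerivAt
    have h2 : (fun y => θ y (V y)) =ᶠ[𝓝 p] fun _ => (0 : ℝ) := by
      filter_upwards [hV] with y hy
      exact (th_eq_zero_iff (hl y)).2 (by rw [← hE]; exact hy.2)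
    have h3 := h1.fderiv
    rw [h2.fderiv_eq, fderiv_fun_const] at h3
    have h4 := congrArg (fun L : E4 →L[ℝ] ℝ => L u) h3
    simp at h4
    linarith
  -- the bracket in terms of the differential
  have brk : ∀ V W : E4 → E4, PSec E p V → PSec E p W → θ p (lieBracket ℝ V W p) =
      (fderiv ℝ θ p (W p)) (V p) - (fderiv ℝ θ p (V p)) (W p) := by
    intro V W hV hW
    rw [lieBracket_eq]
    simp only [map_sub]
    rw [rel V hV, rel W hW]
    ring
  have sa : PSec E p a := Eventually.of_forall fun y => ⟨ca.contDiffAt, by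
    rw [hE]; exact Submodule.subset_span (by simp)⟩
  have sb : PSec E p b := Eventually.of_forall fun y => ⟨cb.contDiffAt, by
    rw [hE]; exact Submodule.subset_span (by simp)⟩
  have sc : PSec E p c := Eventually.of_forall fun y => ⟨cc.contDiffAt, by
    rw [hE]; exact Submodule.subset_span (by simp)⟩
  have h1 := brk a b sa sb
  have h2 := brk a c sa sc
  have h3 := brk b c sb sc
  rw [hθ] at h1 h2 h3
  simp only [th_apply] at h1 h2 h3
  rw [hab] at h1
  rw [hac] at h2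
  rw [hbc] at h3
  have hle : pbr E p ≤ Submodule.span ℝ ({a p, b p, c p} : Set E4) := by
    refine sup_le (hE p).le (Submodule.span_le.2 ?_)
    rintro v ⟨V, W, hV, hW, rfl⟩
    have mV := hV.self_of_nhds.2
    have mW := hW.self_of_nhds.2
    rw [hE, Submodule.mem_span_triple] at mV mW
    obtain ⟨v1, v2, v3, hv⟩ := mV
    obtain ⟨w1, w2, w3, hw⟩ := mW
    refine (th_eq_zero_iff (hl p)).1 ?_
    have h4 := brk V W hV hW
    rw [← hv, ← hw] at h4
    simp only [map_add, map_smul, ContinuousLinearMap.add_apply, ContinuousLinearMap.smul_apply,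
      smul_eq_mul] at h4
    rw [hθ] at h4
    simp only at h4
    rw [h4]
    linear_combination (-(v1 * w2 - v2 * w1)) * h1 + (-(v1 * w3 - v3 * w1)) * h2 +
      (-(v2 * w3 - v3 * w2)) * h3
  intro htop
  obtain ⟨v, hv⟩ := exists_notMem (a p) (b p) (c p)
  apply hv
  apply hle
  rw [htop]
  exact Submodule.mem_top

/-- equivariance of derivatives -/
theorem fderiv_eqv {U : E4 → E4} (hU : Differentiable ℝ U) {k : ℝ} {g : HW}
    (h : ∀ y, U (g • y) = k • g.A (U y)) (p u : E4) :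
    fderiv ℝ U (g • p) (g.A u) = k • g.A (fderiv ℝ U p u) := by
  have h1 : HasFDerivAt (fun y => U (g • y)) _ p :=
    ((hU (g • p)).hasFDerivAt).comp p (g.hasFDerivAt_smul p)
  have h2 : HasFDerivAt (fun y => k • g.A (U y)) _ p :=
    (g.A.hasFDerivAt.comp p (hU p).hasFDerivAt).const_smul k
  have h3 : (fun y => U (g • y)) = fun y => k • g.A (U y) := funext h
  rw [h3] at h1
  have h4 := h1.unique h2
  have h5 := congrArg (fun L : E4 →L[ℝ] E4 => L u) h4
  exact h5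

theorem lie_eqv {U W : E4 → E4} (hU : Differentiable ℝ U) (hW : Differentiable ℝ W) {k l : ℝ}
    {g : HW} (h : ∀ y, U (g • y) = k • g.A (U y)) (h' : ∀ y, W (g • y) = l • g.A (W y)) (p : E4) :
    lieBracket ℝ U W (g • p) = (k * l) • g.A (lieBracket ℝ U W p) := by
  simp only [lieBracket_eq]
  rw [h, h', map_smul, map_smul, fderiv_eqv hU h, fderiv_eqv hW h', map_sub]
  module

/-- **No invariant Engel structure transverse to the complement of `ξ`.** -/
theorem no_engel_plain {D : PF} (h2 : PD 2 D) (h3 : PD 3 (pbr D)) (h4 : ∀ p, pbr (pbr D) p = ⊤)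
    (hI : ∀ (g : HW) (p v : E4), v ∈ D p ↔ g.A v ∈ D (g • p)) (ht : Transv D) : False := by
  obtain ⟨Y₁, Y₂, hF, c1, c2⟩ := exists_frame h2 ht
  set Y₃ : E4 → E4 := lieBracket ℝ Y₁ Y₂ with hY₃
  have c3 : ContDiff ℝ ∞ Y₃ := c1.lieBracket_vectorField c2 (by simp)
  have d1 : Differentiable ℝ Y₁ := c1.differentiable (by simp)
  have d2 : Differentiable ℝ Y₂ := c2.differentiable (by simp)
  have d3 : Differentiable ℝ Y₃ := c3.differentiable (by simp)
  have hE := hF.bracket_eq ht c1 c2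
  have hl : ∀ p, LinearIndependent ℝ ![Y₁ p, Y₂ p, Y₃ p] := fun p => li3 h3 (hE p)
  have e1 : ∀ (g : HW) (p : E4), Y₁ (g • p) = (chi g : ℝ) • g.A (Y₁ p) := by
    intro g p
    refine ht.uniq (hF.m1 _) (Submodule.smul_mem _ _ ((hI g p _).1 (hF.m1 p))) ?_ ?_
    · rw [l1_smul, l1_A, hF.a1, hF.a1, mul_one, chi_sq]
    · rw [l2_smul, l2_A, hF.a2, hF.a2]; ring
  have e2 : ∀ (g : HW) (p : E4), Y₂ (g • p) = (chi g : ℝ) • g.A (Y₂ p) := by
    intro g p
    refine ht.uniq (hF.m2 _) (Submodule.smul_mem _ _ ((hI g p _).1 (hF.m2 p))) ?_ ?_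
    · rw [l1_smul, l1_A, hF.b1, hF.b1]; ring
    · rw [l2_smul, l2_A, hF.b2, hF.b2, mul_one, chi_sq]
  have e3 : ∀ (g : HW) (p : E4), Y₃ (g • p) = (1 : ℝ) • g.A (Y₃ p) := by
    intro g p
    rw [hY₃, lie_eqv d1 d2 (e1 g) (e2 g), chi_sq]
  have e4 : ∀ (g : HW) (p : E4), lieBracket ℝ Y₁ Y₃ (g • p) =
      (chi g : ℝ) • g.A (lieBracket ℝ Y₁ Y₃ p) := by
    intro g p
    rw [lie_eqv d1 d3 (e1 g) (e3 g), mul_one]
  have e5 : ∀ (g : HW) (p : E4), lieBracket ℝ Y₂ Y₃ (g • p) =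
      (chi g : ℝ) • g.A (lieBracket ℝ Y₂ Y₃ p) := by
    intro g p
    rw [lie_eqv d2 d3 (e2 g) (e3 g), mul_one]
  have key : ∀ (g : HW) (a b c d : E4), D4 ((chi g : ℝ) • g.A a) ((chi g : ℝ) • g.A b)
      ((1 : ℝ) • g.A c) ((chi g : ℝ) • g.A d) = chi g * D4 a b c d := by
    intro g a b c d
    have := D4_diag (fun i => (g.s i : ℝ)) g.A (fun v j => g.A_apply v j)
      ![(chi g : ℝ), chi g, 1, chi g] a b c d
    rw [prod_s, Fin.prod_univ_four] at this
    simp only [Matrix.cons_val_zero, Matrix.cons_val_one, Matrix.cons_val] at this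
    rw [this]
    linear_combination (chi g : ℝ) * D4 a b c d * chi_sq g
  set b₁ : E4 → ℝ := fun p => D4 (Y₁ p) (Y₂ p) (Y₃ p) (lieBracket ℝ Y₁ Y₃ p) with hb₁
  set b₂ : E4 → ℝ := fun p => D4 (Y₁ p) (Y₂ p) (Y₃ p) (lieBracket ℝ Y₂ Y₃ p) with hb₂
  have f1 : ∀ (g : HW) (p : E4), b₁ (g • p) = chi g * b₁ p := by
    intro g p
    rw [hb₁]
    simp only
    rw [e1, e2, e3, e4, key]
  have f2 : ∀ (g : HW) (p : E4), b₂ (g • p) = chi g * b₂ p := by
    intro g p
    rw [hb₂]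
    simp only
    rw [e1, e2, e3, e5, key]
  have g1 : Continuous b₁ := continuous_iff_continuousAt.2 fun p =>
    (contDiffAt_D4 c1.contDiffAt c2.contDiffAt c3.contDiffAt
      (c1.lieBracket_vectorField c3 (m := ∞) (by simp)).contDiffAt).continuousAt
  have g2 : Continuous b₂ := continuous_iff_continuousAt.2 fun p =>
    (contDiffAt_D4 c1.contDiffAt c2.contDiffAt c3.contDiffAt
      (c2.lieBracket_vectorField c3 (m := ∞) (by simp)).contDiffAt).continuousAt
  refine no_twisted (fun p => (b₁ p : ℂ) + b₂ p * Complex.I) (by fun_prop) ?_ ?_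
  · intro p h0
    have r1 : b₁ p = 0 := by
      have := congrArg Complex.re h0
      simpa using this
    have r2 : b₂ p = 0 := by
      have := congrArg Complex.im h0
      simpa using this
    refine rank3 c1 c2 c3 hE hl p ?_ r1 r2 (h4 p)
    rw [← th_apply, th_eq_zero_iff (hl p)]
    exact Submodule.subset_span (by simp [hY₃])
  · intro g p
    rw [f1, f2]
    push_cast
    ring

/-- the same statement in terms of the general definitions -/
theorem no_engel {D : SubspaceField E4} (hE : IsEngel D) (hI : Inv D)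
    (ht : Transv (D : PF)) : False := by
  obtain ⟨h2, h3, h4⟩ := hE
  refine no_engel_plain (D := (D : PF)) ((pd_iff 2 D).1 h2) ?_ ?_ hI ht
  · have := (pd_iff 3 (bracket D)).1 h3
    rwa [pbr_eq] at this
  · intro p
    have h5 : (bracket (bracket D) : PF) p = ⊤ := h4 p
    rw [pbr_eq (bracket D), pbr_eq D] at h5
    exact h5

end Pool.Agent.T2h55.Engel
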