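import Mathlib

/-!
# Distributions, foliations, contact and Engel structures on smooth 4-manifolds

General definitions, for a smooth manifold `M` modelled on Euclidean 4-space.
-/

set_option autoImplicit false

open Set Filter Topology Manifold ContDiff Bundle VectorField

namespace Pool.Agent.T2h55.Engel

/-- Euclidean 4-space. -/
abbrev E4 : Type := EuclideanSpace ℝ (Fin 4)

variable {M : Type} [TopologicalSpace M] [ChartedSpace E4 M]

variable (M) in
/-- A vector field on `M` (no regularity is assumed). -/
abbrev VF : Type := ∀ x : M, TangentSpace (𝓡 4) x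

variable (M) in
/-- A field of linear subspaces `D x ⊆ T_x M` of the tangent spaces (no regularity is assumed). -/
abbrev SubspaceField : Type := ∀ x : M, Submodule ℝ (TangentSpace (𝓡 4) x)

variable [IsManifold (𝓡 4) ∞ M]

/-- The vector field `X` is smooth at `x`. -/
def SmoothAt (X : VF M) (x : M) : Prop :=
  ContMDiffAt (𝓡 4) (𝓡 4).tangent ∞ (fun y => (⟨y, X y⟩ : TangentBundle (𝓡 4) M)) x

/-- Near `x`, the vector fields `X 0, ..., X (k-1)` form a smooth frame of `D`. -/
def IsFrameAt {k : ℕ} (X : Fin k → VF M) (D : SubspaceField M) (x : M) : Prop :=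
  ∀ᶠ y in 𝓝 x, (∀ i, SmoothAt (X i) y) ∧ LinearIndependent ℝ (fun i => X i y) ∧
    Submodule.span ℝ (range fun i => X i y) = D y

/-- `D` is a smooth distribution of rank `k`: near every point it has a smooth frame. -/
def IsDistribution (k : ℕ) (D : SubspaceField M) : Prop :=
  ∀ x, ∃ X : Fin k → VF M, IsFrameAt X D x

/-- `X` is a smooth local section of `D` near `x`. -/
def IsLocalSection (D : SubspaceField M) (x : M) (X : VF M) : Prop :=
  ∀ᶠ y in 𝓝 x, SmoothAt X y ∧ X y ∈ D y

/-- The field `[D, D]`: at `x`, the span of `D x` and of all Lie brackets `[X, Y]_x` of smooth local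
sections of `D` near `x`. -/
noncomputable def bracket (D : SubspaceField M) : SubspaceField M := fun x =>
  D x ⊔ Submodule.span ℝ {v | ∃ X Y : VF M, IsLocalSection D x X ∧ IsLocalSection D x Y ∧
    mlieBracket (𝓡 4) X Y x = v}

/-- An Engel structure: a smooth rank 2 distribution `D` such that `E = [D, D]` is a smooth rank 3
distribution and `[E, E] = TM`. -/
def IsEngel (D : SubspaceField M) : Prop :=
  IsDistribution 2 D ∧ IsDistribution 3 (bracket D) ∧ ∀ x, bracket (bracket D) x = ⊤

/-- `F` is the tangent field of a codimension one foliation: near every point there is a smooth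
function `f` without critical points such that `F` is the field of the kernels of `df` (the leaves
are locally the level sets of `f`). -/
def IsFoliation (F : SubspaceField M) : Prop :=
  ∀ x, ∃ f : M → ℝ, ∀ᶠ y in 𝓝 x, ContMDiffAt (𝓡 4) 𝓘(ℝ, ℝ) ∞ f y ∧
    mfderiv (𝓡 4) 𝓘(ℝ, ℝ) f y ≠ 0 ∧
    F y = LinearMap.ker (mfderiv (𝓡 4) 𝓘(ℝ, ℝ) f y : TangentSpace (𝓡 4) y →L[ℝ] ℝ).toLinearMap

/-- `ξ` is a leafwise contact structure on the foliation `F`: a smooth plane field contained in `F`
such that the brackets of its sections span the tangent spaces of the leaves. -/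
def IsLeafwiseContact (F ξ : SubspaceField M) : Prop :=
  IsDistribution 2 ξ ∧ (∀ x, ξ x ≤ F x) ∧ ∀ x, bracket ξ x = F x

/-- `ξ` is the direct sum of two smooth line fields. -/
def SplitsAsLineFields (ξ : SubspaceField M) : Prop :=
  ∃ L₁ L₂ : SubspaceField M, IsDistribution 1 L₁ ∧ IsDistribution 1 L₂ ∧
    ∀ x, L₁ x ⊓ L₂ x = ⊥ ∧ L₁ x ⊔ L₂ x = ξ x

/-- The plane field `D` is `ε`-close to `ξ` with respect to the Riemannian metric `g`: every vector
`v` of `D` has distance at most `ε |v|` from `ξ`. On a closed manifold the sets of all `D` which are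
`ε`-close to `ξ` are a base of neighbourhoods of `ξ` for the `C⁰` topology on plane fields. -/
def IsClose (g : ContinuousRiemannianMetric E4 (fun x : M => TangentSpace (𝓡 4) x)) (ε : ℝ)
    (D ξ : SubspaceField M) : Prop :=
  ∀ x, ∀ v ∈ D x, ∃ w ∈ ξ x, g.inner x (v - w) (v - w) ≤ ε ^ 2 * g.inner x v v

end Pool.Agent.T2h55.Engel
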