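import Pool.Agent.T2h55.Engel.Group

set_option autoImplicit false
set_option linter.unusedSectionVars false

open Set Filter Topology Manifold ContDiff Bundle VectorField

namespace Pool.Agent.T2h55.Engel

/-- `D` is invariant under the group -/
def Inv (D : SubspaceField E4) : Prop :=
  ∀ (g : HW) (p : E4) (v : E4), v ∈ (D p : Submodule ℝ E4) ↔ g.A v ∈ (D (g • p) : Submodule ℝ E4)

/-- the induced field on the quotient -/
noncomputable def desc (D : SubspaceField E4) : SubspaceField M4 := fun m =>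
  pull (chartAt E4 m : M4 → E4) D m

theorem mfderiv_smul (g : HW) (p : E4) :
    (mfderiv (𝓡 4) (𝓡 4) (fun y : E4 => g • y) p : E4 →L[ℝ] E4) = g.A := by
  rw [mfderiv_eq_fderiv]
  exact (g.hasFDerivAt_smul p).fderiv

theorem pull_desc {D : SubspaceField E4} (h : Inv D) : pull (proj HW) (desc D) = D := by
  funext p
  set σ : M4 → E4 := ⇑(chartAt E4 (proj HW p)) with hσ
  have he := chart_ev (chart_mem_atlas E4 (proj HW p)) (mem_chart_source E4 (proj HW p))
  obtain ⟨g, hg, hev⟩ := local_eq he.1 he.2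
  have hs : ContMDiffAt (𝓡 4) (𝓡 4) ∞ σ (proj HW p) := section_smooth he.1 he.2
  have h1 : mfderiv (𝓡 4) (𝓡 4) (σ ∘ proj HW) p = (df σ (proj HW p)).comp (df (proj HW) p) :=
    mfderiv_comp p (hs.mdifferentiableAt (by simp))
      ((proj_LDA (G := HW) p).mdifferentiableAt (by simp))
  have h2 : (mfderiv (𝓡 4) (𝓡 4) (σ ∘ proj HW) p : E4 →L[ℝ] E4) = g.A := by
    rw [← mfderiv_smul g p]
    exact Filter.EventuallyEq.mfderiv_eq hev
  ext v
  rw [mem_pull, desc, mem_pull]
  have h3 : (df σ (proj HW p) (df (proj HW) p v) : E4) = g.A v := by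
    rw [← h2, h1]; rfl
  have h4 : @Eq (Submodule ℝ E4) (D (σ (proj HW p))) (D (g • p)) := cast_field D hg
  have h5 := h g p v
  constructor
  · intro h6
    have h7 : (df σ (proj HW p) (df (proj HW) p v) : E4) ∈
      (D (σ (proj HW p)) : Submodule ℝ E4) := h6
    rw [h3, h4] at h7
    exact h5.2 h7
  · intro h6
    have h7 : (df σ (proj HW p) (df (proj HW) p v) : E4) ∈
      (D (σ (proj HW p)) : Submodule ℝ E4) := by
      rw [h3, h4]
      exact h5.1 h6
    exact h7

theorem df_proj_A (g : HW) (p v : E4) :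
    (df (proj HW) (g • p) (g.A v) : E4) = df (proj HW) p v := by
  have h1 : mfderiv (𝓡 4) (𝓡 4) (proj HW ∘ fun y : E4 => g • y) p =
      (df (proj HW) (g • p)).comp (mfderiv (𝓡 4) (𝓡 4) (fun y : E4 => g • y) p) :=
    mfderiv_comp p ((proj_LDA (G := HW) _).mdifferentiableAt (by simp))
      ((g.contDiff_smul.contMDiff (n := ∞)).mdifferentiableAt (by simp))
  have h2 : (mfderiv (𝓡 4) (𝓡 4) (proj HW ∘ fun y : E4 => g • y) p : E4 →L[ℝ] E4) =
      (mfderiv (𝓡 4) (𝓡 4) (proj HW) p : E4 →L[ℝ] E4) :=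
    Filter.EventuallyEq.mfderiv_eq (Eventually.of_forall fun y => proj_smul g y)
  have h3 : (df (proj HW) (g • p) (g.A v) : E4) =
      (mfderiv (𝓡 4) (𝓡 4) (proj HW ∘ fun y : E4 => g • y) p : E4 →L[ℝ] E4) v := by
    rw [h1, ← mfderiv_smul g p]; rfl
  rw [h3, h2]
  rfl

theorem inv_pull (D : SubspaceField M4) : Inv (pull (proj HW) D) := by
  intro g p v
  have h1 := df_proj_A g p v
  have h2 : @Eq (Submodule ℝ E4) (D (proj HW (g • p))) (D (proj HW p)) :=
    cast_field D (proj_smul g p)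
  constructor
  · intro h
    have h3 : (df (proj HW) (g • p) (g.A v) : E4) ∈
      (D (proj HW (g • p)) : Submodule ℝ E4) := by rw [h1, h2]; exact h
    exact h3
  · intro h
    have h3 : (df (proj HW) (g • p) (g.A v) : E4) ∈
      (D (proj HW (g • p)) : Submodule ℝ E4) := h
    rw [h1, h2] at h3
    exact h3

theorem LDAp (p : E4) : LDA (proj HW) p := proj_LDA p

/-! ### Smoothness and brackets on Euclidean space -/

theorem smoothAt_iff {X : VF E4} {p : E4} : SmoothAt X p ↔ ContDiffAt ℝ ∞ (X : E4 → E4) p := by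
  unfold SmoothAt
  exact contMDiffAt_vectorSpace_iff_contDiffAt

theorem mlie_eq {X Y : VF E4} (p : E4) :
    (mlieBracket (𝓡 4) X Y p : E4) = lieBracket ℝ (X : E4 → E4) (Y : E4 → E4) p := by
  have h1 := congrFun (lieBracketWithin_univ (𝕜 := ℝ) (V := (X : E4 → E4)) (W := (Y : E4 → E4))) p
  have h2 := congrFun (mlieBracketWithin_eq_lieBracketWithin (𝕜 := ℝ) (V := X) (W := Y)
    (s := univ)) p
  rw [mlieBracketWithin_univ] at h2
  exact h2.trans h1

end Pool.Agent.T2h55.Engel
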