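import Pool.Agent.T2h55.Engel.Xi

set_option autoImplicit false

open Set Filter Topology Manifold ContDiff VectorField Bundle

namespace Pool.Agent.T2h55.Engel

/-- `ξ` on the closed manifold -/
noncomputable def Xi : SubspaceField M4 := desc xi
/-- the line fields on the closed manifold -/
noncomputable def La : SubspaceField M4 := desc la
/-- the line fields on the closed manifold -/
noncomputable def Lb : SubspaceField M4 := desc lb
/-- the foliation on the closed manifold -/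
noncomputable def Fo : SubspaceField M4 := desc fo

theorem pull_Xi : pull (proj HW) Xi = xi := pull_desc inv_xi
theorem pull_La : pull (proj HW) La = la := pull_desc inv_la
theorem pull_Lb : pull (proj HW) Lb = lb := pull_desc inv_lb
theorem pull_Fo : pull (proj HW) Fo = fo := pull_desc inv_fo

theorem pull_sup {D D' : SubspaceField M4} :
    pull (proj HW) (fun m => D m ⊔ D' m) = fun p => pull (proj HW) D p ⊔ pull (proj HW) D' p := by
  funext p
  obtain ⟨e, he⟩ := (LDAp p).inv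
  have h : ∀ D : SubspaceField M4, pull (proj HW) D p =
      (D (proj HW p)).map (e.symm : TangentSpace (𝓡 4) (proj HW p) →L[ℝ]
        TangentSpace (𝓡 4) p).toLinearMap := by
    intro D
    ext v
    rw [mem_pull, ← he, Submodule.mem_map]
    constructor
    · intro hv
      exact ⟨e v, hv, by simp⟩
    · rintro ⟨w, hw, rfl⟩
      simpa using hw
  rw [h, h, h, Submodule.map_sup]

theorem pull_bot (p : E4) : pull (proj HW) (fun _ : M4 => ⊥) p = ⊥ := by
  obtain ⟨e, he⟩ := (LDAp p).inv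
  rw [eq_bot_iff]
  intro v hv
  rw [mem_pull, ← he] at hv
  have h4 : e v = 0 := hv
  have h5 : v = 0 := by
    have := congrArg e.symm h4
    simpa using this
  exact h5

/-- the last coordinate -/
def c3 (v : E4) : ℝ := v 3

theorem splits : SplitsAsLineFields Xi := by
  refine ⟨La, Lb, isDistribution_of_pull LDAp proj_surjective ?_,
    isDistribution_of_pull LDAp proj_surjective ?_, ?_⟩
  · rw [pull_La]; exact (pd_iff 1 _).2 pd_la
  · rw [pull_Lb]; exact (pd_iff 1 _).2 pd_lb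
  · have h1 : (fun m => La m ⊓ Lb m) = fun _ => ⊥ := by
      refine pull_injective LDAp proj_surjective ?_
      funext p
      have h2 : pull (proj HW) (fun m => La m ⊓ Lb m) p =
          pull (proj HW) La p ⊓ pull (proj HW) Lb p := rfl
      rw [h2, pull_La, pull_Lb]
      exact (la_inf_lb p).trans (pull_bot p).symm
    have h2 : (fun m => La m ⊔ Lb m) = Xi := by
      refine pull_injective LDAp proj_surjective ?_
      rw [pull_sup, pull_La, pull_Lb, pull_Xi]
      funext p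
      exact la_sup_lb p
    intro m
    exact ⟨congrFun h1 m, congrFun h2 m⟩

theorem dist_Xi : IsDistribution 2 Xi := by
  refine isDistribution_of_pull LDAp proj_surjective ?_
  rw [pull_Xi]
  exact (pd_iff 2 _).2 pd_xi

theorem bracket_Xi : bracket Xi = Fo := by
  refine pull_injective LDAp proj_surjective ?_
  rw [← bracket_pull' LDAp, pull_Xi, pull_Fo]
  have := pbr_eq (xi : SubspaceField E4)
  exact this.trans pbr_xi

theorem Xi_le (m : M4) : Xi m ≤ Fo m := by
  rw [← bracket_Xi]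
  exact le_sup_left

theorem contact : IsLeafwiseContact Fo Xi := ⟨dist_Xi, Xi_le, fun m => by rw [bracket_Xi]⟩

theorem foliation : IsFoliation Fo := by
  intro m
  obtain ⟨p, rfl⟩ := proj_surjective m
  obtain ⟨σ, hσ, hx, h1, -⟩ := (LDAp p).exists_inverse
  refine ⟨fun m' => (EuclideanSpace.proj 3 : E4 →L[ℝ] ℝ) (σ m'), ?_⟩
  filter_upwards [h1.eventually_nhds, hσ.eventually] with m' a1 a2
  have d1 : ContMDiffAt (𝓡 4) 𝓘(ℝ, ℝ) ∞ (EuclideanSpace.proj 3 : E4 →L[ℝ] ℝ) (σ m') :=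
    ((EuclideanSpace.proj 3 : E4 →L[ℝ] ℝ).contDiff.contMDiff).contMDiffAt
  have d2 : mfderiv (𝓡 4) 𝓘(ℝ, ℝ) (fun m' => (EuclideanSpace.proj 3 : E4 →L[ℝ] ℝ) (σ m')) m' =
      (mfderiv (𝓡 4) 𝓘(ℝ, ℝ) (EuclideanSpace.proj 3 : E4 →L[ℝ] ℝ) (σ m')).comp (df σ m') :=
    mfderiv_comp m' (d1.mdifferentiableAt (by simp)) (a2.mdifferentiableAt (by simp))
  have d3 : (mfderiv (𝓡 4) 𝓘(ℝ, ℝ) (EuclideanSpace.proj 3 : E4 →L[ℝ] ℝ) (σ m') : E4 →L[ℝ] ℝ) =
      (EuclideanSpace.proj 3 : E4 →L[ℝ] ℝ) := by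
    rw [mfderiv_eq_fderiv]
    exact (EuclideanSpace.proj 3 : E4 →L[ℝ] ℝ).fderiv
  have d4 : ∀ v : TangentSpace (𝓡 4) m', (mfderiv (𝓡 4) 𝓘(ℝ, ℝ)
      (fun m' => (EuclideanSpace.proj 3 : E4 →L[ℝ] ℝ) (σ m')) m' v : ℝ) =
        c3 (df σ m' v) := by
    intro v
    rw [d2]
    change (mfderiv (𝓡 4) 𝓘(ℝ, ℝ) (EuclideanSpace.proj 3 : E4 →L[ℝ] ℝ) (σ m') : E4 →L[ℝ] ℝ)
      (df σ m' v : E4) = _
    rw [d3]
    rfl
  refine ⟨d1.comp m' a2.contMDiffAt, ?_, ?_⟩
  · obtain ⟨e, he⟩ := a2.inv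
    intro h0
    have h2 := d4 (e.symm (eb 3 : E4))
    rw [h0, ← he] at h2
    have h3 : (e (e.symm (eb 3 : E4)) : E4) = eb 3 := e.apply_symm_apply _
    change (0 : ℝ) = c3 (e (e.symm (eb 3 : E4))) at h2
    rw [h3, c3, eb_apply] at h2
    simp at h2
  · have h2 : pull σ (pull (proj HW) Fo) m' = Fo m' := pull_inv a1 (LDAp _) a2 Fo
    rw [pull_Fo] at h2
    rw [← h2]
    ext v
    have h5 : v ∈ pull σ (fo : SubspaceField E4) m' ↔ c3 (df σ m' v) = 0 := Iff.rfl
    rw [← d4] at h5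
    exact h5

/-! ### Closeness -/

section metric

variable (g : ContinuousRiemannianMetric E4 (fun x : M4 => TangentSpace (𝓡 4) x))

/-- the metric upstairs -/
noncomputable def Gm (p u : E4) : ℝ := g.inner (proj HW p) (df (proj HW) p u) (df (proj HW) p u)

theorem Gm_continuous : Continuous fun q : E4 × E4 => Gm g q.1 q.2 := by
  let : RiemannianBundle (fun x : M4 => TangentSpace (𝓡 4) x) := ⟨g.toRiemannianMetric⟩
  have h1 : Continuous (tangentMap (𝓡 4) (𝓡 4) (proj HW)) :=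
    (proj_smooth (G := HW)).continuous_tangentMap (by simp)
  have h2 : Continuous ((tangentBundleModelSpaceHomeomorph (𝓡 4)).symm :
      ModelProd E4 E4 → TangentBundle (𝓡 4) E4) :=
    (tangentBundleModelSpaceHomeomorph (𝓡 4)).symm.continuous
  have h3 : Continuous fun q : E4 × E4 => (⟨proj HW q.1, df (proj HW) q.1 q.2⟩ :
      TangentBundle (𝓡 4) M4) := h1.comp h2
  exact Continuous.inner_bundle (v := fun q : E4 × E4 => df (proj HW) q.1 q.2)
    (w := fun q : E4 × E4 => df (proj HW) q.1 q.2) h3 h3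

theorem Gm_pos (p u : E4) (hu : u ≠ 0) : 0 < Gm g p u := by
  refine g.pos _ _ ?_
  obtain ⟨e, he⟩ := (LDAp p).inv
  change df (proj HW) p u ≠ 0
  rw [← he]
  intro h
  apply hu
  have := congrArg e.symm h
  have h2 : e.symm (e u) = u := e.symm_apply_apply _
  change e.symm (e u) = e.symm 0 at this
  rw [h2, map_zero] at this
  exact this

theorem Gm_smul (p u : E4) (c : ℝ) : Gm g p (c • u) = c ^ 2 * Gm g p u := by
  unfold Gm
  have h : df (proj HW) p (c • u) = c • df (proj HW) p u := map_smul _ _ _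
  rw [h, map_smul, map_smul]
  simp
  ring

theorem Gm_bounds : ∃ c C : ℝ, 0 < c ∧ 0 < C ∧ ∀ p ∈ cube, ∀ u : E4,
    c * ‖u‖ ^ 2 ≤ Gm g p u ∧ Gm g p u ≤ C * ‖u‖ ^ 2 := by
  have hK : IsCompact (cube ×ˢ Metric.sphere (0 : E4) 1) :=
    cube_compact.prod (isCompact_sphere _ _)
  have hne : (cube ×ˢ Metric.sphere (0 : E4) 1).Nonempty := by
    refine ⟨(0, eb 0), ?_, ?_⟩
    · intro i; simp
    · simp [eb]
  obtain ⟨q, hq, hmin⟩ := hK.exists_isMinOn hne (Gm_continuous g).continuousOn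
  obtain ⟨r, hr, hmax⟩ := hK.exists_isMaxOn hne (Gm_continuous g).continuousOn
  have ne0 : ∀ q ∈ cube ×ˢ Metric.sphere (0 : E4) 1, q.2 ≠ 0 := by
    rintro q ⟨-, h⟩ h0
    rw [h0] at h
    simp at h
  refine ⟨Gm g q.1 q.2, Gm g r.1 r.2, Gm_pos g _ _ (ne0 q hq), Gm_pos g _ _ (ne0 r hr), ?_⟩
  intro p hp u
  rcases eq_or_ne u 0 with rfl | hu
  · have : Gm g p 0 = 0 := by
      have := Gm_smul g p 0 0
      simpa using this
    rw [this]; simp
  · have hn : ‖u‖ ≠ 0 := norm_ne_zero_iff.2 hu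
    have h1 : Gm g p u = ‖u‖ ^ 2 * Gm g p (‖u‖⁻¹ • u) := by
      rw [← Gm_smul, smul_smul, mul_inv_cancel₀ hn, one_smul]
    have hmem : (p, ‖u‖⁻¹ • u) ∈ cube ×ˢ Metric.sphere (0 : E4) 1 := by
      refine ⟨hp, ?_⟩
      simp [norm_smul, hn]
    have h2 := hmin hmem
    have h3 := hmax hmem
    simp only [mem_ofPred_eq] at h2 h3
    have h4 : 0 ≤ ‖u‖ ^ 2 := by positivity
    rw [h1]
    constructor
    · nlinarith
    · nlinarith

end metric

/-- closeness implies transversality -/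
theorem exists_eps (g : ContinuousRiemannianMetric E4 (fun x : M4 => TangentSpace (𝓡 4) x)) :
    ∃ ε > 0, ∀ D : SubspaceField M4, IsClose g ε D Xi → Transv (pull (proj HW) D : PF) := by
  obtain ⟨c, C, hc, hC, hb⟩ := Gm_bounds g
  refine ⟨min 1 (c / (2 * C)), by positivity, fun D hD => ?_⟩
  set ε := min 1 (c / (2 * C)) with hε
  have he0 : 0 < ε := by positivity
  have he1 : ε ≤ 1 := min_le_left _ _
  have he2 : ε ≤ c / (2 * C) := min_le_right _ _
  have he3 : ε ^ 2 * C ≤ c / 2 := by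
    have h1 : ε ^ 2 ≤ ε := by nlinarith
    have h2 : ε * C ≤ c / 2 := by
      calc ε * C ≤ c / (2 * C) * C := by gcongr
        _ = c / 2 := by field_simp
    nlinarith
  -- points of the cube
  have main : ∀ p ∈ cube, ∀ v : E4, v ∈ (pull (proj HW) D : PF) p → l1 v = 0 → l2 p v = 0 →
      v = 0 := by
    intro p hp v hv h1 h2
    obtain ⟨e, he⟩ := (LDAp p).inv
    obtain ⟨w', hw', hcl⟩ := hD (proj HW p) (df (proj HW) p v) hv
    set w : E4 := e.symm w' with hw
    have hww : df (proj HW) p w = w' := by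
      rw [← he]
      exact e.apply_symm_apply w'
    have hwx : w ∈ xi p := by
      have : w ∈ (pull (proj HW) Xi : PF) p := by
        change df (proj HW) p w ∈ Xi (proj HW p)
        rw [hww]; exact hw'
      rw [pull_Xi] at this
      exact this
    have h3 : Gm g p (v - w) ≤ ε ^ 2 * Gm g p v := by
      unfold Gm
      have h4 : df (proj HW) p (v - w) = df (proj HW) p v - w' := by
        rw [← hww]; exact map_sub _ _ _
      rw [h4]
      exact hcl
    have h5 := (hb p hp (v - w)).1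
    have h6 := (hb p hp v).2
    have h7 := norm_sub_ge h1 h2 hwx
    have h8 : c * ‖v‖ ^ 2 ≤ c / 2 * ‖v‖ ^ 2 := by
      calc c * ‖v‖ ^ 2 ≤ c * ‖v - w‖ ^ 2 := by gcongr
        _ ≤ Gm g p (v - w) := h5
        _ ≤ ε ^ 2 * Gm g p v := h3
        _ ≤ ε ^ 2 * (C * ‖v‖ ^ 2) := by gcongr
        _ = ε ^ 2 * C * ‖v‖ ^ 2 := by ring
        _ ≤ c / 2 * ‖v‖ ^ 2 := by gcongr
    have h9 : ‖v‖ ^ 2 ≤ 0 := by nlinarith
    have h10 : ‖v‖ = 0 := by nlinarith [norm_nonneg v]
    exact norm_eq_zero.1 h10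
  intro p v hv h1 h2
  obtain ⟨y, hy, hyp⟩ := exists_cube p
  obtain ⟨k, hk⟩ := proj_eq hyp
  have hv' : k.A v ∈ (pull (proj HW) D : PF) y := by
    have := (inv_pull D k p v).1 hv
    rwa [hk] at this
  have h3 : k.A v = 0 := by
    refine main y hy _ hv' ?_ ?_
    · rw [l1_A, h1, mul_zero]
    · rw [← hk, l2_A, h2, mul_zero]
  ext i
  have h4 := congrArg (fun u : E4 => u i) h3
  simp only [HW.A_apply, PiLp.zero_apply] at h4
  rcases mul_eq_zero.1 h4 with h5 | h5
  · exfalso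
    have h6 := k.s_sq i
    have h7 : k.s i = 0 := by exact_mod_cast h5
    rw [h7] at h6
    simp at h6
  · exact h5

/-- the Engel property passes to the covering -/
theorem engel_pull {D : SubspaceField M4} (h : IsEngel D) : IsEngel (pull (proj HW) D) := by
  obtain ⟨h1, h2, h3⟩ := h
  refine ⟨isDistribution_pull LDAp h1, ?_, ?_⟩
  · rw [bracket_pull' LDAp]; exact isDistribution_pull LDAp h2
  · intro p
    rw [bracket_pull' LDAp, bracket_pull' LDAp]
    exact pull_top (h3 _)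

theorem no_close (g : ContinuousRiemannianMetric E4 (fun x : M4 => TangentSpace (𝓡 4) x)) :
    ∃ ε > 0, ∀ D : SubspaceField M4, IsEngel D → ¬ IsClose g ε D Xi := by
  obtain ⟨ε, h0, h1⟩ := exists_eps g
  refine ⟨ε, h0, fun D hD hc => ?_⟩
  exact no_engel (engel_pull hD) (inv_pull D) (h1 D hc)

end Pool.Agent.T2h55.Engel
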