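import Mathlib

/-!
# Distributions, foliations, contact and Engel structures on smooth manifolds

General definitions, for a smooth manifold `M` without boundary modelled on a normed space `E`.
-/

set_option autoImplicit false

open Set Filter Topology Manifold ContDiff Bundle VectorField

namespace Pool.Agent.T2h55.Engel.General

variable (E : Type) [NormedAddCommGroup E] [NormedSpace ℝ E]
  (M : Type) [TopologicalSpace M] [ChartedSpace E M]

/-- A vector field on `M` (no regularity is assumed). -/
def VecField : Type := ∀ x : M, TangentSpace 𝓘(ℝ, E) x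

/-- A field of linear subspaces `D x ⊆ T_x M` of the tangent spaces (no regularity is assumed). -/
def PlaneField : Type := ∀ x : M, Submodule ℝ (TangentSpace 𝓘(ℝ, E) x)

variable {E M}
variable [IsManifold 𝓘(ℝ, E) ∞ M]

/-- The vector field `X` is smooth at `x`. -/
def SmoothAt (X : VecField E M) (x : M) : Prop :=
  ContMDiffAt 𝓘(ℝ, E) 𝓘(ℝ, E).tangent ∞ (fun y => (⟨y, X y⟩ : TangentBundle 𝓘(ℝ, E) M)) x

/-- Near `x`, the vector fields `X 0, ..., X (k-1)` form a smooth frame of `D`. -/
def IsFrameAt {k : ℕ} (X : Fin k → VecField E M) (D : PlaneField E M) (x : M) : Prop :=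
  ∀ᶠ y in 𝓝 x, (∀ i, SmoothAt (X i) y) ∧ LinearIndependent ℝ (fun i => X i y) ∧
    Submodule.span ℝ (range fun i => X i y) = D y

/-- `D` is a smooth distribution of rank `k`: near every point it has a smooth frame. -/
def IsDistribution (k : ℕ) (D : PlaneField E M) : Prop :=
  ∀ x, ∃ X : Fin k → VecField E M, IsFrameAt X D x

/-- `X` is a smooth local section of `D` near `x`. -/
def IsLocalSection (D : PlaneField E M) (x : M) (X : VecField E M) : Prop :=
  ∀ᶠ y in 𝓝 x, SmoothAt X y ∧ X y ∈ D y

/-- The field `[D, D]`: at `x`, the span of `D x` and of all Lie brackets `[X, Y]_x` of smooth local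
sections of `D` near `x`. -/
noncomputable def bracket (D : PlaneField E M) : PlaneField E M := fun x =>
  D x ⊔ Submodule.span ℝ {v | ∃ X Y : VecField E M, IsLocalSection D x X ∧ IsLocalSection D x Y ∧
    mlieBracket 𝓘(ℝ, E) X Y x = v}

/-- An Engel structure (meant for `dim M = 4`): a smooth rank 2 distribution `D` such that
`[D, D]` is a smooth rank 3 distribution and `[[D, D], [D, D]] = TM`. -/
def IsEngel (D : PlaneField E M) : Prop :=
  IsDistribution 2 D ∧ IsDistribution 3 (bracket D) ∧ ∀ x, bracket (bracket D) x = ⊤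

/-- `F` is the tangent field of a codimension one foliation: near every point there is a smooth
function `f` without critical points such that `F` is the field of the kernels of `df` (the leaves
are locally the level sets of `f`). -/
def IsFoliation (F : PlaneField E M) : Prop :=
  ∀ x, ∃ f : M → ℝ, ∀ᶠ y in 𝓝 x, ContMDiffAt 𝓘(ℝ, E) 𝓘(ℝ, ℝ) ∞ f y ∧
    mfderiv 𝓘(ℝ, E) 𝓘(ℝ, ℝ) f y ≠ 0 ∧
    F y = LinearMap.ker (mfderiv 𝓘(ℝ, E) 𝓘(ℝ, ℝ) f y : TangentSpace 𝓘(ℝ, E) y →L[ℝ] ℝ).toLinearMap

/-- `ξ` is a leafwise contact structure on the foliation `F` of the 4-manifold `M`: a smooth plane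
field contained in `F` such that the brackets of its sections span the tangent spaces of the
leaves. -/
def IsLeafwiseContact (F ξ : PlaneField E M) : Prop :=
  IsDistribution 2 ξ ∧ (∀ x, ξ x ≤ F x) ∧ ∀ x, bracket ξ x = F x

/-- `ξ` is the direct sum of two smooth line fields. -/
def SplitsAsLineFields (ξ : PlaneField E M) : Prop :=
  ∃ L₁ L₂ : PlaneField E M, IsDistribution 1 L₁ ∧ IsDistribution 1 L₂ ∧
    ∀ x, L₁ x ⊓ L₂ x = ⊥ ∧ L₁ x ⊔ L₂ x = ξ x

variable (E M) in
/-- A continuous Riemannian metric on `M`. -/
abbrev RiemMetric : Type :=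
  ContinuousRiemannianMetric E (fun x : M => TangentSpace 𝓘(ℝ, E) x)

variable (E M) in
/-- A smooth Riemannian metric on `M`. -/
abbrev SmoothRiemMetric : Type :=
  ContMDiffRiemannianMetric 𝓘(ℝ, E) ∞ E (fun x : M => TangentSpace 𝓘(ℝ, E) x)

/-- The plane field `D` is `ε`-close to `ξ` with respect to the Riemannian metric `g`: every vector
`v` of `D` has distance at most `ε |v|` from `ξ`. On a closed manifold the sets of all `D` which are
`ε`-close to `ξ` are a base of neighbourhoods of `ξ` for the `C⁰` topology on plane fields. -/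
def IsClose (g : RiemMetric E M) (ε : ℝ) (D ξ : PlaneField E M) : Prop :=
  ∀ x, ∀ v ∈ D x, ∃ w ∈ ξ x, g.inner x (v - w) (v - w) ≤ ε ^ 2 * g.inner x v v

/-- The model space: Euclidean 4-space, with its usual norm. -/
def R4 : Type := EuclideanSpace ℝ (Fin 4)

/-- The usual norm of Euclidean 4-space. -/
noncomputable instance instNormR4 : NormedAddCommGroup R4 :=
  (inferInstance : NormedAddCommGroup (EuclideanSpace ℝ (Fin 4)))

/-- The usual structure of real normed space of Euclidean 4-space. -/
noncomputable instance instNormedSpaceR4 : NormedSpace ℝ R4 :=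
  (inferInstance : NormedSpace ℝ (EuclideanSpace ℝ (Fin 4)))

end Pool.Agent.T2h55.Engel.General
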