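import Pool.Agent.T2h55.Engel.Quot

set_option autoImplicit false
set_option linter.unusedSectionVars false

open Set Filter Topology Manifold ContDiff Bundle VectorField

namespace Pool.Agent.T2h55.Engel

/-- The fundamental group of (Hantzsche-Wendt manifold) times circle. The element with data
`t = (t 0, t 1, t 2, t 3)` acts on Euclidean 4-space by
`x 0 ↦ (-1)^(t 2) x 0 + t 0 / 2`, `x 1 ↦ (-1)^(t 0) x 1 + t 1 / 2`,
`x 2 ↦ (-1)^(t 1) x 2 + t 2 / 2`, `x 3 ↦ x 3 + t 3`. -/
@[ext]
structure HW where
  /-- the data -/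
  t : Fin 4 → ℤ
  /-- the parity condition -/
  ev : Even (t 0 + t 1 + t 2)

/-- the sign `(-1)^n` -/
def sg (n : ℤ) : ℤ := (n.negOnePow : ℤ)

theorem sg_even {n : ℤ} (h : Even n) : sg n = 1 := by simp [sg, Int.negOnePow_even n h]
theorem sg_odd {n : ℤ} (h : Odd n) : sg n = -1 := by simp [sg, Int.negOnePow_odd n h]
theorem sg_add (m n : ℤ) : sg (m + n) = sg m * sg n := by simp [sg, Int.negOnePow_add]
theorem sg_mul_self (n : ℤ) : sg n * sg n = 1 := by
  rcases Int.even_or_odd n with h | h
  · rw [sg_even h]; rfl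
  · rw [sg_odd h]; rfl
theorem sg_sg_mul (m n : ℤ) : sg (sg m * n) = sg n := by
  rcases Int.even_or_odd m with h | h
  · rw [sg_even h, one_mul]
  · rw [sg_odd h]
    rcases Int.even_or_odd n with h | h
    · rw [sg_even h, sg_even (by simpa using h)]
    · rw [sg_odd h, sg_odd (by simpa using h)]
theorem sg_cases (n : ℤ) : sg n = 1 ∨ sg n = -1 := by
  rcases Int.even_or_odd n with h | h
  · exact Or.inl (sg_even h)
  · exact Or.inr (sg_odd h)
theorem even_sg_mul {m n : ℤ} : Even (sg m * n) ↔ Even n := by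
  rcases sg_cases m with h | h <;> simp [h]

namespace HW

/-- the linear part: a diagonal matrix of signs -/
def s (g : HW) : Fin 4 → ℤ := ![sg (g.t 2), sg (g.t 0), sg (g.t 1), 1]

@[simp] theorem s0 (g : HW) : g.s 0 = sg (g.t 2) := rfl
@[simp] theorem s1 (g : HW) : g.s 1 = sg (g.t 0) := rfl
@[simp] theorem s2 (g : HW) : g.s 2 = sg (g.t 1) := rfl
@[simp] theorem s3 (g : HW) : g.s 3 = 1 := rfl

theorem s_sq (g : HW) (i : Fin 4) : g.s i * g.s i = 1 := by
  fin_cases i <;> simp [sg_mul_self]

theorem s_cases (g : HW) (i : Fin 4) : g.s i = 1 ∨ g.s i = -1 := by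
  fin_cases i <;> simp [sg_cases]

/-- composition -/
instance : Mul HW where
  mul g h := ⟨fun i => g.s i * h.t i + g.t i, by
    have h1 := g.ev
    have h2 := h.ev
    simp only [s0, s1, s2]
    simp only [Int.even_add, even_sg_mul] at h1 h2 ⊢
    tauto⟩

theorem mul_t (g h : HW) (i : Fin 4) : (g * h).t i = g.s i * h.t i + g.t i := rfl

theorem mul_s (g h : HW) (i : Fin 4) : (g * h).s i = g.s i * h.s i := by
  fin_cases i <;> simp [mul_t, sg_add, sg_sg_mul, mul_comm]

instance : One HW := ⟨⟨fun _ => 0, by simp⟩⟩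

theorem one_t (i : Fin 4) : (1 : HW).t i = 0 := rfl
theorem one_s (i : Fin 4) : (1 : HW).s i = 1 := by
  fin_cases i <;> simp [one_t, sg]

instance : Inv HW where
  inv g := ⟨fun i => -(g.s i * g.t i), by
    have h1 := g.ev
    simp only [s0, s1, s2, Int.even_add, even_neg, even_sg_mul] at h1 ⊢
    exact h1⟩

theorem inv_t (g : HW) (i : Fin 4) : (g⁻¹).t i = -(g.s i * g.t i) := rfl

theorem sg_neg (n : ℤ) : sg (-n) = sg n := by
  rcases Int.even_or_odd n with h | h
  · rw [sg_even h, sg_even (by simpa using h)]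
  · rw [sg_odd h, sg_odd (by simpa using h)]

theorem inv_s (g : HW) (i : Fin 4) : (g⁻¹).s i = g.s i := by
  fin_cases i <;> simp [inv_t, sg_neg, sg_sg_mul]

instance : Group HW where
  mul_assoc a b c := by
    ext i
    simp only [mul_t, mul_s]
    ring
  one_mul a := by
    ext i
    simp [mul_t, one_s, one_t]
  mul_one a := by
    ext i
    simp [mul_t, one_t]
  inv_mul_cancel a := by
    ext i
    simp only [mul_t, inv_s, inv_t, one_t]
    ring

/-- the translation part -/
noncomputable def tr (g : HW) : Fin 4 → ℝ := ![g.t 0 / 2, g.t 1 / 2, g.t 2 / 2, g.t 3]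

noncomputable instance : SMul HW E4 := ⟨fun g x => WithLp.toLp 2 fun i => (g.s i : ℝ) * x i + g.tr i⟩

@[simp] theorem smul_apply (g : HW) (x : E4) (i : Fin 4) :
    (g • x) i = (g.s i : ℝ) * x i + g.tr i := rfl

theorem mul_tr (g h : HW) (i : Fin 4) : (g * h).tr i = (g.s i : ℝ) * h.tr i + g.tr i := by
  fin_cases i <;> simp [tr, mul_t] <;> ring

noncomputable instance : MulAction HW E4 where
  one_smul x := by
    ext i
    rw [smul_apply, one_s]
    fin_cases i <;> simp [tr, one_t]
  mul_smul g h x := by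
    ext i
    rw [smul_apply, smul_apply, smul_apply, mul_s, mul_tr]
    push_cast
    ring

theorem smul_eq (g : HW) (x : E4) : g • x = g • (0 : E4) + WithLp.toLp 2 fun i => (g.s i : ℝ) * x i := by
  ext i
  simp [add_comm]

/-- the linear part as a continuous linear map -/
noncomputable def A (g : HW) : E4 →L[ℝ] E4 :=
  LinearMap.toContinuousLinearMap
    { toFun := fun x => WithLp.toLp 2 fun i => (g.s i : ℝ) * x i
      map_add' := fun x y => by ext i; simp [mul_add]
      map_smul' := fun c x => by ext i; simp; ring }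

@[simp] theorem A_apply (g : HW) (x : E4) (i : Fin 4) : g.A x i = (g.s i : ℝ) * x i := rfl

theorem smul_eq' (g : HW) (x : E4) : g • x = g • (0 : E4) + g.A x := by
  ext i
  simp [add_comm]

theorem hasFDerivAt_smul (g : HW) (x : E4) : HasFDerivAt (fun y : E4 => g • y) g.A x := by
  have : (fun y : E4 => g • y) = fun y => g • (0 : E4) + g.A y := funext fun y => g.smul_eq' y
  rw [this]
  exact g.A.hasFDerivAt.const_add _

theorem contDiff_smul (g : HW) : ContDiff ℝ ∞ fun y : E4 => g • y := by
  have : (fun y : E4 => g • y) = fun y => g • (0 : E4) + g.A y := funext fun y => g.smul_eq' y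
  rw [this]
  exact contDiff_const.add g.A.contDiff

instance : SmoothAct HW := ⟨contDiff_smul⟩

instance : ContinuousConstSMul HW E4 := ⟨fun g => (g.contDiff_smul).continuous⟩

theorem t_zero_of {g : HW} {x : E4} (h : g • x = x) : g = 1 := by
  have h0 := congrArg (fun y : E4 => y 0) h
  have h1 := congrArg (fun y : E4 => y 1) h
  have h2 := congrArg (fun y : E4 => y 2) h
  have h3 := congrArg (fun y : E4 => y 3) h
  simp only [smul_apply, s0, s1, s2, s3, tr] at h0 h1 h2 h3
  simp only [Matrix.cons_val_zero, Matrix.cons_val_one, Matrix.cons_val] at h0 h1 h2 h3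
  have hev := g.ev
  have t3 : g.t 3 = 0 := by
    have : (g.t 3 : ℝ) = 0 := by push_cast at h3; linarith
    exact_mod_cast this
  have key : ∀ a b : ℤ, ∀ y : ℝ, Even a → (sg a : ℝ) * y + b / 2 = y → b = 0 := by
    intro a b y ha hy
    rw [sg_even ha] at hy
    have : (b : ℝ) = 0 := by push_cast at hy; linarith
    exact_mod_cast this
  have fin : g.t 0 = 0 ∧ g.t 1 = 0 ∧ g.t 2 = 0 := by
    rcases Int.even_or_odd (g.t 0) with e0 | e0
    · have t1 := key _ _ _ e0 h1
      have t2 := key _ _ _ (by rw [t1]; simp) h2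
      have t0 := key _ _ _ (by rw [t2]; simp) h0
      exact ⟨t0, t1, t2⟩
    · rcases Int.even_or_odd (g.t 1) with e1 | e1
      · have t2 := key _ _ _ e1 h2
        have t0 := key _ _ _ (by rw [t2]; simp) h0
        rw [t0] at e0; simp at e0
      · have e2 : Even (g.t 2) := by
          rw [Int.even_add, Int.even_add] at hev
          have n0 : ¬ Even (g.t 0) := by simpa using e0
          have n1 : ¬ Even (g.t 1) := by simpa using e1
          tauto
        have t0 := key _ _ _ e2 h0
        rw [t0] at e0; simp at e0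
  ext i
  fin_cases i
  · exact fin.1
  · exact fin.2.1
  · exact fin.2.2
  · exact t3

instance : IsCancelSMul HW E4 := isCancelSMul_iff_eq_one_of_smul_eq.2 fun _ _ h => t_zero_of h

instance : ProperlyDiscontinuousSMul HW E4 where
  finite_disjoint_inter_image := by
    intro K L hK hL
    obtain ⟨R, hR⟩ := hK.isBounded.exists_norm_le
    obtain ⟨R', hR'⟩ := hL.isBounded.exists_norm_le
    obtain ⟨n, hn⟩ := exists_nat_ge (2 * (R + R'))
    refine Set.Finite.subset (Set.Finite.preimage (f := HW.t) (fun a _ b _ h => HW.ext h)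
      (Set.finite_Icc (fun _ => -(n : ℤ)) (fun _ => (n : ℤ)))) ?_
    rintro g ⟨_, ⟨x, hx, rfl⟩, hy⟩
    have b : ∀ i, |g.tr i| ≤ R + R' := by
      intro i
      have h1 : g.tr i = (g • x) i - (g.s i : ℝ) * x i := by simp
      have h2 : |(g • x) i| ≤ R' := ((PiLp.norm_apply_le (g • x) i).trans (hR' _ hy))
      have h3 : |(g.s i : ℝ) * x i| ≤ R := by
        have : |(g.s i : ℝ)| = 1 := by
          rcases g.s_cases i with h | h <;> simp [h]
        rw [abs_mul, this, one_mul]
        exact (PiLp.norm_apply_le x i).trans (hR _ hx)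
      rw [h1]
      calc |(g • x) i - (g.s i : ℝ) * x i| ≤ |(g • x) i| + |(g.s i : ℝ) * x i| := abs_sub _ _
        _ ≤ R + R' := by linarith
    have c : ∀ i, |(g.t i : ℝ)| ≤ n := by
      intro i
      have hb := b i
      have : |(g.t i : ℝ)| ≤ 2 * |g.tr i| := by
        fin_cases i
        · simp [tr, abs_div]; linarith
        · simp [tr, abs_div]; linarith
        · simp [tr, abs_div]; linarith
        · simp [tr]; linarith [abs_nonneg (g.t 3 : ℝ)]
      linarith
    rw [mem_preimage, mem_Icc]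
    constructor
    · intro i
      have := (abs_le.1 (c i)).1
      exact_mod_cast this
    · intro i
      have := (abs_le.1 (c i)).2
      exact_mod_cast this

end HW

/-- the closed 4-manifold -/
abbrev M4 : Type := Q HW

instance : ConnectedSpace M4 := by
  have : ConnectedSpace E4 := inferInstance
  exact proj_surjective.connectedSpace proj_continuous

/-- the unit cube -/
def cube : Set E4 := {x | ∀ i, x i ∈ Icc (0 : ℝ) 1}

theorem cube_compact : IsCompact cube := by
  have h : IsCompact (Set.pi univ fun _ : Fin 4 => Icc (0 : ℝ) 1) :=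
    isCompact_univ_pi fun _ => isCompact_Icc
  have h2 := h.image (PiLp.continuous_toLp 2 (fun _ : Fin 4 => ℝ))
  convert h2 using 1
  ext x
  constructor
  · intro hx
    exact ⟨fun i => x i, fun i _ => hx i, rfl⟩
  · rintro ⟨y, hy, rfl⟩ i
    exact hy i (mem_univ i)

/-- every point is equivalent to a point of the cube -/
theorem exists_cube (x : E4) : ∃ y ∈ cube, proj HW y = proj HW x := by
  let g : HW := ⟨fun i => if i = 3 then -⌊x 3⌋ else -(2 * ⌊x i⌋), by
    simp only [show (0 : Fin 4) ≠ 3 by decide, show (1 : Fin 4) ≠ 3 by decide,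
      show (2 : Fin 4) ≠ 3 by decide, if_false]
    refine ⟨-(⌊x 0⌋ + ⌊x 1⌋ + ⌊x 2⌋), by ring⟩⟩
  have ht : ∀ i : Fin 4, i ≠ 3 → g.t i = -(2 * ⌊x i⌋) := fun i hi => if_neg hi
  have ht3 : g.t 3 = -⌊x 3⌋ := by
    change (if (3 : Fin 4) = 3 then -⌊x 3⌋ else -(2 * ⌊x 3⌋)) = _
    rw [if_pos rfl]
  have hs : ∀ i, g.s i = 1 := by
    intro i
    fin_cases i
    · change sg (g.t 2) = 1
      rw [ht 2 (by decide)]
      exact sg_even ⟨-⌊x 2⌋, by ring⟩
    · change sg (g.t 0) = 1
      rw [ht 0 (by decide)]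
      exact sg_even ⟨-⌊x 0⌋, by ring⟩
    · change sg (g.t 1) = 1
      rw [ht 1 (by decide)]
      exact sg_even ⟨-⌊x 1⌋, by ring⟩
    · rfl
  have htr : ∀ i, g.tr i = -(⌊x i⌋ : ℝ) := by
    intro i
    fin_cases i
    · simp [HW.tr, ht 0 (by decide)]; ring
    · simp [HW.tr, ht 1 (by decide)]; ring
    · simp [HW.tr, ht 2 (by decide)]; ring
    · simp [HW.tr, ht3]
  refine ⟨g • x, fun i => ?_, proj_smul g x⟩
  rw [HW.smul_apply, hs, htr]
  push_cast
  constructor
  · linarith [Int.floor_le (x i)]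
  · linarith [Int.lt_floor_add_one (x i)]

instance : CompactSpace M4 := by
  refine ⟨?_⟩
  have h := cube_compact.image (proj_continuous (G := HW))
  convert h using 1
  ext m
  simp only [mem_univ, true_iff]
  obtain ⟨x, rfl⟩ := proj_surjective m
  obtain ⟨y, hy, h1⟩ := exists_cube x
  exact ⟨y, hy, h1⟩

instance : T2Space M4 := inferInstance

end Pool.Agent.T2h55.Engel
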