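import Pool.Agent.T2h55.Engel.Topo

set_option autoImplicit false

open Set Filter Topology Manifold ContDiff VectorField

namespace Pool.Agent.T2h55.Engel

/-- determinant of four vectors -/
noncomputable def D4 (a b c d : E4) : ℝ :=
  (Matrix.of ![fun j => a j, fun j => b j, fun j => c j, fun j => d j]).det

theorem D4_ne_zero_iff {a b c d : E4} :
    D4 a b c d ≠ 0 ↔ LinearIndependent ℝ ![a, b, c, d] := by
  have h1 : LinearIndependent ℝ ![a, b, c, d] ↔ LinearIndependent ℝ
      (Matrix.of ![fun j => a j, fun j => b j, fun j => c j, fun j => d j]).row := by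
    have e := (WithLp.linearEquiv 2 ℝ (Fin 4 → ℝ))
    have h2 : (Matrix.of ![fun j => a j, fun j => b j, fun j => c j, fun j => d j]).row =
        (WithLp.linearEquiv 2 ℝ (Fin 4 → ℝ)) ∘ ![a, b, c, d] := by
      funext i
      fin_cases i <;> rfl
    rw [h2]
    exact ((WithLp.linearEquiv 2 ℝ (Fin 4 → ℝ)).toLinearMap.linearIndependent_iff
      (LinearEquiv.ker _)).symm
  rw [h1, Matrix.linearIndependent_rows_iff_isUnit, Matrix.isUnit_iff_isUnit_det, isUnit_iff_ne_zero]
  rfl

/-- the basis vectors -/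
noncomputable def eb (j : Fin 4) : E4 := EuclideanSpace.single j 1

theorem D4_minor (a b c v : E4) : D4 a b c v = ∑ j : Fin 4, (-1) ^ (3 + (j : ℕ)) * v j *
    ((Matrix.of ![fun j => a j, fun j => b j, fun j => c j]).submatrix id (Fin.succAbove j)).det := by
  unfold D4
  rw [Matrix.det_succ_row _ 3]
  refine Finset.sum_congr rfl fun j _ => ?_
  congr 1

theorem D4_expand (a b c v : E4) : D4 a b c v =
    D4 a b c (eb 0) * v 0 + D4 a b c (eb 1) * v 1 + D4 a b c (eb 2) * v 2 +
      D4 a b c (eb 3) * v 3 := by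
  simp only [D4_minor, Fin.sum_univ_four, eb, PiLp.single_apply]
  simp
  ring

/-- the functional `v ↦ D4 a b c v` -/
noncomputable def th (a b c : E4) : E4 →L[ℝ] ℝ :=
  D4 a b c (eb 0) • EuclideanSpace.proj 0 + D4 a b c (eb 1) • EuclideanSpace.proj 1 +
    D4 a b c (eb 2) • EuclideanSpace.proj 2 + D4 a b c (eb 3) • EuclideanSpace.proj 3

theorem th_apply (a b c v : E4) : th a b c v = D4 a b c v := by
  rw [D4_expand]
  simp [th]

theorem contDiffAt_D4 {a b c d : E4 → E4} {p : E4} (ha : ContDiffAt ℝ ∞ a p)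
    (hb : ContDiffAt ℝ ∞ b p) (hc : ContDiffAt ℝ ∞ c p) (hd : ContDiffAt ℝ ∞ d p) :
    ContDiffAt ℝ ∞ (fun y => D4 (a y) (b y) (c y) (d y)) p := by
  have e : ∀ (f : E4 → E4), ContDiffAt ℝ ∞ f p → ∀ j, ContDiffAt ℝ ∞ (fun y => f y j) p := by
    intro f hf j
    exact (contDiffAt_euclidean.1 hf) j
  have ha' := e a ha
  have hb' := e b hb
  have hc' := e c hc
  have hd' := e d hd
  have h1 : ∀ i j : Fin 4, ContDiffAt ℝ ∞ (fun y => (Matrix.of ![fun j => a y j, fun j => b y j,
      fun j => c y j, fun j => d y j]) i j) p := by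
    intro i j
    fin_cases i
    · exact ha' j
    · exact hb' j
    · exact hc' j
    · exact hd' j
  simp only [D4, Matrix.det_apply]
  refine ContDiffAt.sum fun σ _ => ?_
  simp only [Units.smul_def, zsmul_eq_mul]
  exact contDiffAt_const.mul (contDiffAt_prod fun i _ => h1 _ _)

theorem contDiffAt_th {a b c : E4 → E4} {p : E4} (ha : ContDiffAt ℝ ∞ a p)
    (hb : ContDiffAt ℝ ∞ b p) (hc : ContDiffAt ℝ ∞ c p) :
    ContDiffAt ℝ ∞ (fun y => th (a y) (b y) (c y)) p := by
  unfold th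
  have h : ∀ j, ContDiffAt ℝ ∞ (fun y => D4 (a y) (b y) (c y) (eb j)) p := fun j =>
    contDiffAt_D4 ha hb hc contDiffAt_const
  exact ((((h 0).smul contDiffAt_const).add ((h 1).smul contDiffAt_const)).add
    ((h 2).smul contDiffAt_const)).add ((h 3).smul contDiffAt_const)

theorem exists_notMem (a b c : E4) : ∃ v : E4, v ∉ Submodule.span ℝ ({a, b, c} : Set E4) := by
  by_contra h
  push Not at h
  have h1 : Submodule.span ℝ ({a, b, c} : Set E4) = ⊤ := by
    ext v; simp [h v]
  have h2 : Module.finrank ℝ (Submodule.span ℝ ({a, b, c} : Set E4)) ≤ 3 := by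
    have := finrank_span_le_card (R := ℝ) ({a, b, c} : Set E4)
    refine this.trans ?_
    rw [Set.toFinset_insert, Set.toFinset_insert, Set.toFinset_singleton]
    exact Finset.card_le_three
  rw [h1, finrank_top] at h2
  simp at h2

theorem range3 (a b c : E4) : range ![a, b, c] = {a, b, c} := by
  ext v
  simp only [mem_range, mem_insert_iff, mem_singleton_iff]
  constructor
  · rintro ⟨i, rfl⟩
    fin_cases i <;> simp
  · rintro (rfl | rfl | rfl)
    · exact ⟨0, rfl⟩
    · exact ⟨1, rfl⟩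
    · exact ⟨2, rfl⟩

theorem li4_iff {a b c v : E4} (h : LinearIndependent ℝ ![a, b, c]) :
    LinearIndependent ℝ ![a, b, c, v] ↔ v ∉ Submodule.span ℝ ({a, b, c} : Set E4) := by
  rw [← range3]
  have h1 : (![a, b, c, v] : Fin 4 → E4) = Fin.snoc ![a, b, c] v := by
    funext i
    fin_cases i <;> rfl
  rw [h1, linearIndependent_finSnoc]
  exact ⟨fun h => h.2, fun h2 => ⟨h, h2⟩⟩

/-- kernel of the functional -/
theorem th_eq_zero_iff {a b c v : E4} (h : LinearIndependent ℝ ![a, b, c]) :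
    th a b c v = 0 ↔ v ∈ Submodule.span ℝ ({a, b, c} : Set E4) := by
  rw [th_apply, ← not_iff_not, ← ne_eq, D4_ne_zero_iff, li4_iff h]

/-- effect of a diagonal matrix of signs and of signs on the vectors -/
theorem D4_diag (s : Fin 4 → ℝ) (A : E4 → E4) (hA : ∀ v j, A v j = s j * v j) (r : Fin 4 → ℝ)
    (a b c d : E4) : D4 (r 0 • A a) (r 1 • A b) (r 2 • A c) (r 3 • A d) =
      (∏ i, r i) * (∏ i, s i) * D4 a b c d := by
  have h : (Matrix.of ![fun j => (r 0 • A a) j, fun j => (r 1 • A b) j, fun j => (r 2 • A c) j,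
      fun j => (r 3 • A d) j]) = Matrix.diagonal r *
      (Matrix.of ![fun j => a j, fun j => b j, fun j => c j, fun j => d j]) * Matrix.diagonal s := by
    ext i j
    rw [Matrix.mul_diagonal, Matrix.diagonal_mul]
    fin_cases i <;> simp [hA] <;> ring
  unfold D4
  rw [h, Matrix.det_mul, Matrix.det_mul, Matrix.det_diagonal, Matrix.det_diagonal]
  ring

/-- bracket of combinations -/
theorem lie_comb {a b c d : E4 → ℝ} {Y₁ Y₂ : E4 → E4} {p : E4} (ha : DifferentiableAt ℝ a p)
    (hb : DifferentiableAt ℝ b p) (hc : DifferentiableAt ℝ c p) (hd : DifferentiableAt ℝ d p)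
    (h₁ : DifferentiableAt ℝ Y₁ p) (h₂ : DifferentiableAt ℝ Y₂ p) :
    lieBracket ℝ (fun y => a y • Y₁ y + b y • Y₂ y) (fun y => c y • Y₁ y + d y • Y₂ y) p ∈
      Submodule.span ℝ ({Y₁ p, Y₂ p, lieBracket ℝ Y₁ Y₂ p} : Set E4) := by
  have key : ∀ {a b : E4 → ℝ}, DifferentiableAt ℝ a p → DifferentiableAt ℝ b p → ∀ u,
      fderiv ℝ (fun y => a y • Y₁ y + b y • Y₂ y) p u =
        (fderiv ℝ a p u) • Y₁ p + a p • fderiv ℝ Y₁ p u + (fderiv ℝ b p u) • Y₂ p +
          b p • fderiv ℝ Y₂ p u := by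
    intro a b ha hb u
    have h3 : HasFDerivAt (fun y => a y • Y₁ y + b y • Y₂ y) _ p :=
      (ha.hasFDerivAt.smul h₁.hasFDerivAt).add (hb.hasFDerivAt.smul h₂.hasFDerivAt)
    rw [h3.fderiv]
    simp
    module
  have e : lieBracket ℝ (fun y => a y • Y₁ y + b y • Y₂ y) (fun y => c y • Y₁ y + d y • Y₂ y) p =
      (fderiv ℝ c p (a p • Y₁ p + b p • Y₂ p) - fderiv ℝ a p (c p • Y₁ p + d p • Y₂ p)) • Y₁ p +
      (fderiv ℝ d p (a p • Y₁ p + b p • Y₂ p) - fderiv ℝ b p (c p • Y₁ p + d p • Y₂ p)) • Y₂ p +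
      (a p * d p - b p * c p) • lieBracket ℝ Y₁ Y₂ p := by
    rw [lieBracket_eq, lieBracket_eq]
    simp only
    rw [key ha hb, key hc hd]
    simp only [map_add, map_smul, smul_eq_mul]
    module
  rw [e]
  refine Submodule.add_mem _ (Submodule.add_mem _ (Submodule.smul_mem _ _ ?_)
    (Submodule.smul_mem _ _ ?_)) (Submodule.smul_mem _ _ ?_)
  · exact Submodule.subset_span (by simp)
  · exact Submodule.subset_span (by simp)
  · exact Submodule.subset_span (by simp)

end Pool.Agent.T2h55.Engel
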