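import Pool.Agent.T2h55.Engel.Upstairs

set_option autoImplicit false

open Set Filter Topology Manifold ContDiff VectorField

namespace Pool.Agent.T2h55.Engel

/-- fields of subspaces of Euclidean space -/
abbrev PF : Type := E4 → Submodule ℝ E4

/-- frames near a point -/
def PFrame {k : ℕ} (X : Fin k → E4 → E4) (D : PF) (p : E4) : Prop :=
  ∀ᶠ y in 𝓝 p, (∀ i, ContDiffAt ℝ ∞ (X i) y) ∧ LinearIndependent ℝ (fun i => X i y) ∧
    Submodule.span ℝ (range fun i => X i y) = D y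

/-- distributions -/
def PD (k : ℕ) (D : PF) : Prop := ∀ p, ∃ X : Fin k → E4 → E4, PFrame X D p

/-- local sections -/
def PSec (D : PF) (p : E4) (V : E4 → E4) : Prop := ∀ᶠ y in 𝓝 p, ContDiffAt ℝ ∞ V y ∧ V y ∈ D y

/-- bracket field -/
noncomputable def pbr (D : PF) : PF := fun p =>
  D p ⊔ Submodule.span ℝ {v | ∃ V W : E4 → E4, PSec D p V ∧ PSec D p W ∧ lieBracket ℝ V W p = v}

theorem pframe_iff {k : ℕ} (X : Fin k → VF E4) (D : SubspaceField E4) (p : E4) :
    IsFrameAt X D p ↔ PFrame (X : Fin k → E4 → E4) (D : PF) p := by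
  unfold IsFrameAt PFrame
  simp only [smoothAt_iff]
  exact Iff.rfl

theorem pd_iff (k : ℕ) (D : SubspaceField E4) : IsDistribution k D ↔ PD k (D : PF) := by
  constructor
  · intro h p
    obtain ⟨X, hX⟩ := h p
    exact ⟨X, (pframe_iff X D p).1 hX⟩
  · intro h p
    obtain ⟨X, hX⟩ := h p
    exact ⟨X, (pframe_iff X D p).2 hX⟩

theorem psec_iff (D : SubspaceField E4) (p : E4) (V : VF E4) :
    IsLocalSection D p V ↔ PSec (D : PF) p (V : E4 → E4) := by
  unfold IsLocalSection PSec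
  simp only [smoothAt_iff]
  exact Iff.rfl

theorem pbr_eq (D : SubspaceField E4) : (bracket D : PF) = pbr (D : PF) := by
  funext p
  have h : @Eq (Set E4) {v | ∃ X Y : VF E4, IsLocalSection D p X ∧ IsLocalSection D p Y ∧
      mlieBracket (𝓡 4) X Y p = v} {v | ∃ V W : E4 → E4, PSec D p V ∧ PSec D p W ∧
        lieBracket ℝ V W p = v} := by
    ext v
    constructor
    · rintro ⟨X, Y, hX, hY, h⟩
      exact ⟨X, Y, (psec_iff D p X).1 hX, (psec_iff D p Y).1 hY, (mlie_eq p).symm.trans h⟩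
    · rintro ⟨X, Y, hX, hY, h⟩
      exact ⟨X, Y, (psec_iff D p X).2 hX, (psec_iff D p Y).2 hY,
        (mlie_eq (X := X) (Y := Y) p).trans h⟩
  exact congrArg (fun S : Set E4 => (D p : Submodule ℝ E4) ⊔ Submodule.span ℝ S) h

end Pool.Agent.T2h55.Engel
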