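import Pool.Agent.T2h55.Engel.Transfer

set_option autoImplicit false
set_option linter.unusedSectionVars false

open Set Filter Topology Manifold ContDiff Bundle VectorField

namespace Pool.Agent.T2h55.Engel

variable {G : Type} [Group G] [MulAction G E4] [ProperlyDiscontinuousSMul G E4]
  [ContinuousConstSMul G E4] [IsCancelSMul G E4]

variable (G) in
/-- the quotient manifold -/
abbrev Q : Type := MulAction.orbitRel.Quotient G E4

variable (G) in
/-- the projection -/
def proj (x : E4) : Q G := Quotient.mk _ x

variable (G) in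
theorem isQC : IsQuotientCoveringMap (proj G) G :=
  isQuotientCoveringMap_quotientMk_of_properlyDiscontinuousSMul

variable (G) in
theorem isLH : IsLocalHomeomorph (proj G) := (isQC G).isCoveringMap.isLocalHomeomorph

theorem proj_smul (g : G) (x : E4) : proj G (g • x) = proj G x := (isQC G).map_smul g

theorem proj_eq {x y : E4} (h : proj G x = proj G y) : ∃ g : G, g • y = x :=
  (isQC G).apply_eq_iff_mem_orbit.1 h

theorem proj_surjective : Function.Surjective (proj G) := (isQC G).surjective

theorem proj_continuous : Continuous (proj G) := (isQC G).continuous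

theorem atlas_spec {e : OpenPartialHomeomorph (Q G) E4} (he : e ∈ atlas E4 (Q G)) :
    (∀ m ∈ e.source, proj G (e m) = m) ∧ ∀ x, e.symm x = proj G x := by
  obtain ⟨q, rfl⟩ := he
  constructor
  · intro m hm
    simp only [OpenPartialHomeomorph.trans_source, chartAt_self_eq,
      OpenPartialHomeomorph.refl_source, preimage_univ, inter_univ] at hm
    simp only [OpenPartialHomeomorph.coe_trans, Function.comp_apply, chartAt_self_eq,
      OpenPartialHomeomorph.refl_apply]
    exact (isLH G).apply_localInverseAt_of_mem hm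
  · intro x
    simp only [chartAt_self_eq, OpenPartialHomeomorph.coe_trans_symm,
      OpenPartialHomeomorph.refl_symm, Function.comp_apply, OpenPartialHomeomorph.refl_apply]
    exact congrFun ((isLH G).localInverseAt_symm _) x

/-- a local section of the projection, composed with the projection, is a group element -/
theorem local_eq {σ : Q G → E4} {p : E4} (hσ : ContinuousAt σ (proj G p))
    (h : ∀ᶠ m in 𝓝 (proj G p), proj G (σ m) = m) :
    ∃ g : G, σ (proj G p) = g • p ∧ ∀ᶠ y in 𝓝 p, σ (proj G y) = g • y := by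
  obtain ⟨g, hg⟩ := proj_eq h.self_of_nhds
  refine ⟨g, hg.symm, ?_⟩
  set V := ((isLH G).localInverseAt (g • p)).target
  have hV : V ∈ 𝓝 (g • p) := ((isLH G).localInverseAt (g • p)).open_target.mem_nhds
    (isLH G).self_mem_localInverseAt_target
  have h1 : ∀ᶠ y in 𝓝 p, σ (proj G y) ∈ V := by
    have : Tendsto (fun y => σ (proj G y)) (𝓝 p) (𝓝 (g • p)) := by
      have h2 := hσ.tendsto.comp (proj_continuous (G := G)).continuousAt.tendsto
      rwa [← hg] at h2
    exact this.eventually hV
  have h2 : ∀ᶠ y in 𝓝 p, g • y ∈ V :=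
    (continuous_const_smul g).continuousAt.tendsto.eventually hV
  have h3 : ∀ᶠ y in 𝓝 p, proj G (σ (proj G y)) = proj G y :=
    (proj_continuous (G := G)).continuousAt.tendsto.eventually h
  filter_upwards [h1, h2, h3] with y a1 a2 a3
  refine (isLH G).injOn_localInverseAt_target a1 a2 ?_
  rw [a3, proj_smul]

theorem chart_ev {e : OpenPartialHomeomorph (Q G) E4} (he : e ∈ atlas E4 (Q G)) {m : Q G}
    (hm : m ∈ e.source) : ContinuousAt e m ∧ ∀ᶠ m' in 𝓝 m, proj G (e m') = m' :=
  ⟨e.continuousAt hm, by
    filter_upwards [e.open_source.mem_nhds hm] with m' hm'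
    exact (atlas_spec he).1 m' hm'⟩

/-- the action is smooth -/
class SmoothAct (G : Type) [Group G] [MulAction G E4] : Prop where
  smooth : ∀ g : G, ContDiff ℝ ∞ fun x : E4 => g • x

instance [SmoothAct G] : IsManifold (𝓡 4) ∞ (Q G) := by
  refine isManifold_of_contDiffOn (𝓡 4) ∞ (Q G) fun e e' he he' => ?_
  intro x hx
  simp only [modelWithCornersSelf_coe, modelWithCornersSelf_coe_symm, Function.id_comp,
    Function.comp_id, preimage_id, range_id, inter_univ] at hx ⊢
  simp only [OpenPartialHomeomorph.trans_source, OpenPartialHomeomorph.symm_source, mem_inter_iff,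
    mem_preimage] at hx
  have h1 := (atlas_spec he).2 x
  rw [h1] at hx
  obtain ⟨g, -, hg⟩ := local_eq (chart_ev he' hx.2).1 (chart_ev he' hx.2).2
  have h2 : ContDiffAt ℝ ∞ (e.symm ≫ₕ e') x := by
    refine ((SmoothAct.smooth g).contDiffAt (x := x)).congr_of_eventuallyEq ?_
    filter_upwards [hg] with y hy
    rw [OpenPartialHomeomorph.coe_trans, Function.comp_apply, (atlas_spec he).2 y, hy]
  exact h2.contDiffWithinAt

theorem section_smooth [SmoothAct G] {σ : Q G → E4} {m : Q G} (hσ : ContinuousAt σ m)
    (h : ∀ᶠ m' in 𝓝 m, proj G (σ m') = m') : ContMDiffAt (𝓡 4) (𝓡 4) ∞ σ m := by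
  rw [contMDiffAt_iff]
  refine ⟨hσ, ?_⟩
  have hm := (chart_ev (chart_mem_atlas E4 m) (mem_chart_source E4 m)).2.self_of_nhds
  have h1 : ContinuousAt σ (proj G (chartAt E4 m m)) := by rwa [hm]
  have h2 : ∀ᶠ m' in 𝓝 (proj G (chartAt E4 m m)), proj G (σ m') = m' := by rwa [hm]
  obtain ⟨g, -, hg⟩ := local_eq h1 h2
  have h3 : ContDiffAt ℝ ∞ (fun y => σ (proj G y)) (chartAt E4 m m) :=
    ((SmoothAct.smooth g).contDiffAt (x := chartAt E4 m m)).congr_of_eventuallyEq hg
  refine ContDiffAt.contDiffWithinAt ?_
  have e1 : extChartAt (𝓡 4) (σ m) ∘ σ ∘ (extChartAt (𝓡 4) m).symm =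
      fun y => σ (proj G y) := by
    funext y
    simp only [extChartAt, OpenPartialHomeomorph.extend, chartAt_self_eq, Function.comp_apply]
    change σ ((chartAt E4 m).symm y) = σ (proj G y)
    rw [(atlas_spec (chart_mem_atlas E4 m)).2 y]
  have e2 : extChartAt (𝓡 4) m m = chartAt E4 m m := rfl
  rw [e1, e2]
  exact h3

theorem proj_smooth [SmoothAct G] : ContMDiff (𝓡 4) (𝓡 4) ∞ (proj G) := by
  intro p
  rw [contMDiffAt_iff]
  refine ⟨proj_continuous.continuousAt, ?_⟩
  have he := chart_ev (chart_mem_atlas E4 (proj G p)) (mem_chart_source E4 (proj G p))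
  obtain ⟨g, -, hg⟩ := local_eq he.1 he.2
  have h3 : ContDiffAt ℝ ∞ (fun y => chartAt E4 (proj G p) (proj G y)) p :=
    ((SmoothAct.smooth g).contDiffAt (x := p)).congr_of_eventuallyEq hg
  exact h3.contDiffWithinAt

theorem proj_LDA [SmoothAct G] (p : E4) : LDA (proj G) p := by
  refine ⟨{ toPartialEquiv := ((isLH G).localInverseAt p).symm.toPartialEquiv
            open_source := ((isLH G).localInverseAt p).open_target
            open_target := ((isLH G).localInverseAt p).open_source
            contMDiffOn_toFun := ?_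
            contMDiffOn_invFun := ?_ }, ?_, ?_⟩
  · intro x hx
    have h1 : (((isLH G).localInverseAt p).symm.toPartialEquiv.toFun : E4 → Q G) = proj G :=
      (isLH G).localInverseAt_symm p
    change ContMDiffWithinAt _ _ _ (((isLH G).localInverseAt p).symm.toPartialEquiv.toFun) _ _
    rw [h1]
    exact (proj_smooth x).contMDiffWithinAt
  · intro m hm
    refine ContMDiffAt.contMDiffWithinAt (section_smooth ?_ ?_)
    · exact ((isLH G).localInverseAt p).continuousAt hm
    · filter_upwards [((isLH G).localInverseAt p).open_source.mem_nhds hm] with m' hm'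
      exact (isLH G).apply_localInverseAt_of_mem hm'
  · exact (isLH G).self_mem_localInverseAt_target
  · intro x _
    exact (congrFun ((isLH G).localInverseAt_symm p) x).symm

end Pool.Agent.T2h55.Engel
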