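import Pool.Agent.T2h55.Engel.Descent

set_option autoImplicit false

open Set Filter Topology Complex

namespace Pool.Agent.T2h55.Engel

/-- the sign character -/
def chi (g : HW) : ℤ := g.s 2

/-- a screw motion -/
def ga : HW := ⟨![1, 1, 0, 0], by decide⟩
/-- another screw motion -/
def gb : HW := ⟨![0, 1, 1, 0], by decide⟩

theorem chi_ga : chi ga = -1 := by
  change sg 1 = -1
  exact sg_odd (by decide)

theorem rel : ga * ga * gb * ga * ga = gb := by
  have h0 : sg 0 = 1 := sg_even (by decide)
  have h1 : sg 1 = -1 := sg_odd (by decide)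
  have a : ga.t = ![1, 1, 0, 0] := rfl
  have b : gb.t = ![0, 1, 1, 0] := rfl
  have as : ga.s = ![1, -1, -1, 1] := by
    change ![sg 0, sg 1, sg 1, 1] = _
    rw [h0, h1]
  have bs : gb.s = ![-1, 1, -1, 1] := by
    change ![sg 1, sg 0, sg 1, 1] = _
    rw [h0, h1]
  ext i
  simp only [HW.mul_t, HW.mul_s, as, bs, a, b]
  fin_cases i <;> simp

/-- there is no nowhere vanishing continuous function with the sign character -/
theorem no_twisted (F : E4 → ℂ) (hc : Continuous F) (h0 : ∀ p, F p ≠ 0)
    (hF : ∀ (g : HW) (p : E4), F (g • p) = (chi g : ℂ) * F p) : False := by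
  -- a continuous logarithm
  obtain ⟨h, hh⟩ : ∃ h : C(E4, ℂ), ∀ p, Complex.exp (h p) = F p := by
    obtain ⟨w, hw⟩ : ∃ w, Complex.exp w = F 0 := ⟨Complex.log (F 0), Complex.exp_log (h0 0)⟩
    obtain ⟨h, ⟨_, h2⟩, _⟩ := isCoveringMapOn_exp.existsUnique_continuousMap_lifts
      (⟨F, hc⟩ : C(E4, ℂ)) (a₀ := (0 : E4)) (e₀ := w) hw (fun p => by simpa using h0 p)
    exact ⟨h, fun p => congrFun h2 p⟩
  -- differences are constant
  have hk : ∀ g : HW, ∃ c : ℂ, ∀ p, h (g • p) = h p + c := by
    intro g
    refine ⟨h (g • (0 : E4)) - h 0, fun p => ?_⟩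
    have hcont : Continuous fun p => h (g • p) - h p :=
      (h.continuous.comp (continuous_const_smul g)).sub h.continuous
    have hexp : ∀ p, Complex.exp (h (g • p) - h p) = (chi g : ℂ) := by
      intro p
      rw [Complex.exp_sub, hh, hh, hF]
      field_simp [h0 p]
    have hconst : ∀ p q, h (g • p) - h p = h (g • q) - h q := by
      intro p q
      obtain ⟨u, hu⟩ : ∃ u, Complex.exp u = (chi g : ℂ) := ⟨_, hexp p⟩
      have hrange : ∀ p, ∃ n : ℤ, h (g • p) - h p = u + n * (2 * Real.pi * I) := by
        intro p
        exact Complex.exp_eq_exp_iff_exists_int.1 ((hexp p).trans hu.symm)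
      choose n hn using hrange
      have hn' : Continuous fun p => ((n p : ℤ) : ℝ) := by
        have : (fun p => ((n p : ℤ) : ℝ)) = fun p => ((h (g • p) - h p - u).im) / (2 * Real.pi) := by
          funext p
          rw [hn p]
          have hpi : (2 * Real.pi) ≠ 0 := by positivity
          simp
        rw [this]
        exact (Complex.continuous_im.comp (hcont.sub continuous_const)).div_const _
      have hn'' : Continuous n := by
        exact Int.isClosedEmbedding_coe_real.isEmbedding.continuous_iff.2 hn'
      have := PreconnectedSpace.constant (α := E4) inferInstance hn'' (x := p) (y := q)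
      rw [hn p, hn q, this]
    have := hconst p 0
    linear_combination this
  choose c hc' using hk
  have hmul : ∀ g g' : HW, c (g * g') = c g + c g' := by
    intro g g'
    have h1 := hc' (g * g') 0
    rw [mul_smul, hc', hc'] at h1
    linear_combination -h1
  have h1 : c ga = 0 := by
    have := congrArg c rel
    simp only [hmul] at this
    linear_combination (1 / 4) * this
  have h2 := hF ga 0
  rw [← hh, ← hh, hc', h1, add_zero, chi_ga] at h2
  have h3 := Complex.exp_ne_zero (h 0)
  push_cast at h2
  apply h3
  linear_combination (1 / 2) * h2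

end Pool.Agent.T2h55.Engel
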