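import Pool.Agent.T2h55.Engel.Defs

set_option autoImplicit false
set_option linter.unusedSectionVars false

open Set Filter Topology Manifold ContDiff Bundle VectorField

namespace Pool.Agent.T2h55.Engel

variable {N M : Type} [TopologicalSpace N] [ChartedSpace E4 N] [IsManifold (𝓡 4) ∞ N]
  [TopologicalSpace M] [ChartedSpace E4 M] [IsManifold (𝓡 4) ∞ M]

theorem le_infty_three : (3 : WithTop ℕ∞) ≤ ∞ := by
  exact WithTop.coe_le_coe.2 (le_top : (3 : ℕ∞) ≤ ⊤)

theorem le_infty_two : (2 : WithTop ℕ∞) ≤ ∞ := by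
  exact WithTop.coe_le_coe.2 (le_top : (2 : ℕ∞) ≤ ⊤)

theorem cast_field (D : SubspaceField M) {a b : M} (h : a = b) :
    @Eq (Submodule ℝ E4) (D a) (D b) := by subst h; rfl

/-- local diffeomorphism at a point -/
abbrev LDA (f : N → M) (x : N) : Prop := IsLocalDiffeomorphAt (𝓡 4) (𝓡 4) ∞ f x

/-- the derivative -/
noncomputable abbrev df (f : N → M) (x : N) : TangentSpace (𝓡 4) x →L[ℝ] TangentSpace (𝓡 4) (f x) :=
  mfderiv (𝓡 4) (𝓡 4) f x

/-- pull back of a field of subspaces -/
noncomputable def pull (f : N → M) (D : SubspaceField M) : SubspaceField N := fun x =>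
  (D (f x)).comap (df f x).toLinearMap

theorem mem_pull {f : N → M} {D : SubspaceField M} {x : N} {v : TangentSpace (𝓡 4) x} :
    v ∈ pull f D x ↔ df f x v ∈ D (f x) := Iff.rfl

theorem LDA.eventually {f : N → M} {x : N} (h : LDA f x) : ∀ᶠ y in 𝓝 x, LDA f y := by
  obtain ⟨Φ, hx, he⟩ := h
  filter_upwards [Φ.open_source.mem_nhds hx] with y hy
  exact ⟨Φ, hy, he⟩

theorem LDA.inv {f : N → M} {x : N} (h : LDA f x) : (df f x).IsInvertible :=
  ⟨h.mfderivToContinuousLinearEquiv (by simp), rfl⟩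

theorem LDA.cont {f : N → M} {x : N} (h : LDA f x) : ContinuousAt f x :=
  h.contMDiffAt.continuousAt

theorem LDA.df_mpull {f : N → M} {x : N} (h : LDA f x) (X : VF M) :
    df f x (mpullback (𝓡 4) (𝓡 4) f X x) = X (f x) := by
  obtain ⟨e, he⟩ := h.inv
  rw [mpullback_apply]
  change df f x ((df f x).inverse _) = _
  rw [← he]
  simp

theorem SmoothAt.mpull {f : N → M} {x : N} (h : LDA f x) {X : VF M} (hX : SmoothAt X (f x)) :
    SmoothAt (mpullback (𝓡 4) (𝓡 4) f X) x :=
  ContMDiffAt.mpullback_vectorField_preimage hX h.contMDiffAt h.inv (by simp)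

theorem IsLocalSection.mpull {f : N → M} {x : N} (h : LDA f x) {D : SubspaceField M}
    {D' : SubspaceField N} (hD : ∀ᶠ y in 𝓝 x, D' y = pull f D y) {X : VF M}
    (hX : IsLocalSection D (f x) X) : IsLocalSection D' x (mpullback (𝓡 4) (𝓡 4) f X) := by
  filter_upwards [hD, h.eventually, h.cont.eventually hX] with y h1 h2 h3
  refine ⟨SmoothAt.mpull h2 h3.1, ?_⟩
  rw [h1, mem_pull, h2.df_mpull]
  exact h3.2

theorem mlie_mpull {f : N → M} {x : N} (h : LDA f x) {X Y : VF M} (hX : SmoothAt X (f x))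
    (hY : SmoothAt Y (f x)) :
    mpullback (𝓡 4) (𝓡 4) f (mlieBracket (𝓡 4) X Y) x =
      mlieBracket (𝓡 4) (mpullback (𝓡 4) (𝓡 4) f X) (mpullback (𝓡 4) (𝓡 4) f Y) x := by
  have i1 : IsManifold (𝓡 4) (minSmoothness ℝ 3) N :=
    IsManifold.of_le (n := ∞) (by rw [minSmoothness_of_isRCLikeNormedField]; first | exact le_infty_three | exact le_infty_two)
  have i2 : IsManifold (𝓡 4) (minSmoothness ℝ 3) M :=
    IsManifold.of_le (n := ∞) (by rw [minSmoothness_of_isRCLikeNormedField]; first | exact le_infty_three | exact le_infty_two)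
  have i3 : IsManifold (𝓡 4) (minSmoothness ℝ 2) N :=
    IsManifold.of_le (n := ∞) (by rw [minSmoothness_of_isRCLikeNormedField]; first | exact le_infty_three | exact le_infty_two)
  have i4 : IsManifold (𝓡 4) (minSmoothness ℝ 2) M :=
    IsManifold.of_le (n := ∞) (by rw [minSmoothness_of_isRCLikeNormedField]; first | exact le_infty_three | exact le_infty_two)
  exact mpullback_mlieBracket (n := ∞) (hX.mdifferentiableAt (by simp))
    (hY.mdifferentiableAt (by simp)) h.contMDiffAt
    (by rw [minSmoothness_of_isRCLikeNormedField]; first | exact le_infty_three | exact le_infty_two)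

theorem IsLocalSection.smooth {D : SubspaceField M} {x : M} {X : VF M}
    (h : IsLocalSection D x X) : SmoothAt X x := (h.self_of_nhds).1

/-- generators go to generators -/
theorem gen_mpull {f : N → M} {x : N} (h : LDA f x) {D : SubspaceField M}
    {D' : SubspaceField N} (hD : ∀ᶠ y in 𝓝 x, D' y = pull f D y) :
    pull f (bracket D) x ≤ bracket D' x := by
  obtain ⟨e, he⟩ := h.inv
  intro v hv
  rw [mem_pull] at hv
  have key : ∀ w ∈ bracket D (f x), e.symm w ∈ bracket D' x := by
    intro w hw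
    have : bracket D (f x) ≤ (bracket D' x).comap (e.symm : TangentSpace (𝓡 4) (f x) →L[ℝ]
        TangentSpace (𝓡 4) x).toLinearMap := by
      refine sup_le ?_ (Submodule.span_le.2 ?_)
      · intro u hu
        refine Submodule.mem_sup_left ?_
        rw [hD.self_of_nhds, mem_pull, ← he]
        simpa using hu
      · rintro u ⟨X, Y, hX, hY, rfl⟩
        refine Submodule.mem_sup_right (Submodule.subset_span ?_)
        refine ⟨_, _, hX.mpull h hD, hY.mpull h hD, ?_⟩
        rw [← mlie_mpull h hX.smooth hY.smooth, mpullback_apply]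
        change (df f x).inverse _ = _
        rw [← he]
        simp
    exact this hw
  have := key _ hv
  rwa [← he, ContinuousLinearEquiv.coe_coe, ContinuousLinearEquiv.symm_apply_apply] at this

/-- a local inverse -/
theorem LDA.exists_inverse {f : N → M} {x : N} (h : LDA f x) : ∃ σ : M → N, LDA σ (f x) ∧
    σ (f x) = x ∧ (∀ᶠ m in 𝓝 (f x), f (σ m) = m) ∧ ∀ᶠ y in 𝓝 x, σ (f y) = y :=
  ⟨h.localInverse, h.localInverse_isLocalDiffeomorphAt,
    h.localInverse_left_inv h.localInverse_mem_target, h.localInverse_eventuallyEq_right,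
    h.localInverse_eventuallyEq_left⟩

theorem df_comp_inv {f : N → M} {σ : M → N} {m : M} (h : ∀ᶠ y in 𝓝 m, f (σ y) = y)
    (hf : LDA f (σ m)) (hσ : LDA σ m) (v : TangentSpace (𝓡 4) m) :
    (df f (σ m) (df σ m v) : E4) = v := by
  have h1 : mfderiv (𝓡 4) (𝓡 4) (f ∘ σ) m = (df f (σ m)).comp (df σ m) :=
    mfderiv_comp m (hf.mdifferentiableAt (by simp)) (hσ.mdifferentiableAt (by simp))
  have h2 : (mfderiv (𝓡 4) (𝓡 4) (f ∘ σ) m : E4 →L[ℝ] E4) =
      (mfderiv (𝓡 4) (𝓡 4) (id : M → M) m : E4 →L[ℝ] E4) :=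
    Filter.EventuallyEq.mfderiv_eq (f₁ := f ∘ σ) (f := (id : M → M)) h
  have h3 : (mfderiv (𝓡 4) (𝓡 4) (f ∘ σ) m : E4 →L[ℝ] E4) v = v := by
    rw [h2, mfderiv_id]; rfl
  rw [h1] at h3
  exact h3

theorem pull_inv {f : N → M} {σ : M → N} {m : M} (h : ∀ᶠ y in 𝓝 m, f (σ y) = y)
    (hf : LDA f (σ m)) (hσ : LDA σ m) (D : SubspaceField M) :
    pull σ (pull f D) m = D m := by
  ext v
  have h1 : @Eq (Submodule ℝ E4) (D (f (σ m))) (D m) := cast_field D h.self_of_nhds
  rw [mem_pull, mem_pull]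
  have h2 := df_comp_inv h hf hσ v
  constructor
  · intro h3
    have h4 : (df f (σ m) (df σ m v) : E4) ∈ (D (f (σ m)) : Submodule ℝ E4) := h3
    rw [h2, h1] at h4
    exact h4
  · intro h3
    have h4 : (df f (σ m) (df σ m v) : E4) ∈ (D (f (σ m)) : Submodule ℝ E4) := by
      rw [h2, h1]; exact h3
    exact h4

/-- **Naturality of the bracket.** -/
theorem bracket_pull {f : N → M} {x : N} (h : LDA f x) {D : SubspaceField M}
    {D' : SubspaceField N} (hD : ∀ᶠ y in 𝓝 x, D' y = pull f D y) :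
    bracket D' x = pull f (bracket D) x := by
  refine le_antisymm ?_ (gen_mpull h hD)
  obtain ⟨σ, hσ, hx, h1, h2⟩ := h.exists_inverse
  -- `D = σ^* D'` near `f x`
  have hev : ∀ᶠ m in 𝓝 (f x), D m = pull σ D' m := by
    have hc : Tendsto σ (𝓝 (f x)) (𝓝 x) := by
      have := hσ.cont
      rwa [ContinuousAt, hx] at this
    filter_upwards [h1.eventually_nhds, hσ.eventually, hc.eventually hD, hc.eventually h.eventually]
      with m a1 a2 a3 a4
    rw [← pull_inv a1 a4 a2 D]
    ext v
    rw [mem_pull, mem_pull (D := D'), a3]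
  have key := gen_mpull hσ hev
  intro v hv
  rw [mem_pull]
  apply key
  rw [mem_pull]
  have h3 : @Eq (Submodule ℝ E4) (bracket D' (σ (f x))) (bracket D' x) :=
    cast_field (bracket D') hx
  have h4 : (df σ (f x) (df f x v) : E4) = v :=
    df_comp_inv (f := σ) (σ := f) h2 hσ h v
  have h5 : (df σ (f x) (df f x v) : E4) ∈ (bracket D' (σ (f x)) : Submodule ℝ E4) := by
    rw [h4, h3]; exact hv
  exact h5

/-- pull back of frames -/
theorem frame_pull {f : N → M} {x : N} (h : LDA f x) {D : SubspaceField M}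
    {D' : SubspaceField N} (hD : ∀ᶠ y in 𝓝 x, D' y = pull f D y) {k : ℕ} {X : Fin k → VF M}
    (hX : IsFrameAt X D (f x)) : IsFrameAt (fun i => mpullback (𝓡 4) (𝓡 4) f (X i)) D' x := by
  filter_upwards [hD, h.eventually, h.cont.eventually hX] with y h1 h2 h3
  obtain ⟨h4, h5, h6⟩ := h3
  obtain ⟨e, he⟩ := h2.inv
  have h7 : (fun i => mpullback (𝓡 4) (𝓡 4) f (X i) y) = fun i => e.symm (X i (f y)) := by
    funext i
    rw [mpullback_apply]
    change (df f y).inverse _ = _
    rw [← he]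
    simp
  refine ⟨fun i => SmoothAt.mpull h2 (h4 i), ?_, ?_⟩
  · rw [h7]
    exact h5.map' (e.symm : TangentSpace (𝓡 4) (f y) →ₗ[ℝ] TangentSpace (𝓡 4) y)
      (LinearMap.ker_eq_bot.2 e.symm.injective)
  · rw [h7, h1]
    have h8 : (range fun i => e.symm (X i (f y))) =
        (e.symm : TangentSpace (𝓡 4) (f y) →ₗ[ℝ] TangentSpace (𝓡 4) y) ''
          (range fun i => X i (f y)) := by
      rw [← range_comp]; rfl
    rw [h8, ← Submodule.map_span, h6]
    ext v
    rw [mem_pull, ← he, Submodule.mem_map]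
    constructor
    · rintro ⟨w, hw, rfl⟩
      change e (e.symm w) ∈ _
      rwa [ContinuousLinearEquiv.apply_symm_apply]
    · intro hv
      exact ⟨e v, hv, by change e.symm (e v) = v; simp⟩

theorem isDistribution_pull {f : N → M} (h : ∀ x, LDA f x) {D : SubspaceField M} {k : ℕ}
    (hD : IsDistribution k D) : IsDistribution k (pull f D) := fun x => by
  obtain ⟨X, hX⟩ := hD (f x)
  exact ⟨_, frame_pull (h x) (Eventually.of_forall fun _ => rfl) hX⟩

theorem isDistribution_of_pull {f : N → M} (h : ∀ x, LDA f x) (hs : Function.Surjective f)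
    {D : SubspaceField M} {k : ℕ} (hD : IsDistribution k (pull f D)) : IsDistribution k D := by
  intro m
  obtain ⟨x, rfl⟩ := hs m
  obtain ⟨X, hX⟩ := hD x
  obtain ⟨σ, hσ, hx, h1, h2⟩ := (h x).exists_inverse
  refine ⟨_, frame_pull (f := σ) (x := f x) hσ (D := pull f D) ?_ (X := X) ?_⟩
  · filter_upwards [h1.eventually_nhds, hσ.eventually] with m a1 a2
    exact (pull_inv a1 (h _) a2 D).symm
  · rwa [hx]

theorem bracket_pull' {f : N → M} (h : ∀ x, LDA f x) (D : SubspaceField M) :
    bracket (pull f D) = pull f (bracket D) :=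
  funext fun x => bracket_pull (h x) (Eventually.of_forall fun _ => rfl)

theorem pull_top {f : N → M} {D : SubspaceField M} {x : N} (h : D (f x) = ⊤) : pull f D x = ⊤ := by
  ext v; rw [mem_pull, h]; simp

theorem pull_injective {f : N → M} (h : ∀ x, LDA f x) (hs : Function.Surjective f)
    {D D' : SubspaceField M} (hD : pull f D = pull f D') : D = D' := by
  funext m
  obtain ⟨x, rfl⟩ := hs m
  obtain ⟨e, he⟩ := (h x).inv
  ext v
  have := congrFun hD x
  have h1 : e.symm v ∈ pull f D x ↔ e.symm v ∈ pull f D' x := by rw [this]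
  rw [mem_pull, mem_pull, ← he] at h1
  simpa using h1

end Pool.Agent.T2h55.Engel
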