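import Pool.Agent.T2h55.Engel.Lin

set_option autoImplicit false

open Set Filter Topology Manifold ContDiff VectorField

namespace Pool.Agent.T2h55.Engel

/-- first functional -/
noncomputable def l1 (v : E4) : ℝ := v 2
/-- second functional -/
noncomputable def l2 (p v : E4) : ℝ :=
  Real.sin (2 * Real.pi * p 2) * v 0 + Real.cos (2 * Real.pi * p 2) * v 1

theorem l1_add (v w : E4) : l1 (v + w) = l1 v + l1 w := rfl
theorem l1_sub (v w : E4) : l1 (v - w) = l1 v - l1 w := rfl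
theorem l1_smul (c : ℝ) (v : E4) : l1 (c • v) = c * l1 v := rfl
theorem l2_add (p v w : E4) : l2 p (v + w) = l2 p v + l2 p w := by
  simp [l2]; ring
theorem l2_sub (p v w : E4) : l2 p (v - w) = l2 p v - l2 p w := by
  simp [l2]; ring
theorem l2_smul (p : E4) (c : ℝ) (v : E4) : l2 p (c • v) = c * l2 p v := by
  simp [l2]; ring

theorem chi_cases (g : HW) : chi g = 1 ∨ chi g = -1 := g.s_cases 2
theorem chi_sq (g : HW) : (chi g : ℝ) * chi g = 1 := by exact_mod_cast g.s_sq 2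

theorem sin_tr (g : HW) (p : E4) : Real.sin (2 * Real.pi * (g • p) 2) =
    (sg (g.t 2) : ℝ) * (g.s 2 : ℝ) * Real.sin (2 * Real.pi * p 2) := by
  have h1 : 2 * Real.pi * (g • p) 2 = (g.s 2 : ℝ) * (2 * Real.pi * p 2) + (g.t 2 : ℤ) * Real.pi := by
    rw [HW.smul_apply]
    simp only [HW.tr, Matrix.cons_val]
    ring
  rw [h1]
  have h2 : Real.sin ((g.s 2 : ℝ) * (2 * Real.pi * p 2)) = (g.s 2 : ℝ) *
      Real.sin (2 * Real.pi * p 2) := by
    rcases g.s_cases 2 with h | h <;> rw [h] <;> simp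
  rcases Int.even_or_odd (g.t 2) with he | ho
  · obtain ⟨k, hk⟩ := he
    rw [sg_even ⟨k, hk⟩, hk, show (((k + k : ℤ) : ℝ)) * Real.pi = (k : ℝ) * (2 * Real.pi) by
      push_cast; ring, Real.sin_add_int_mul_two_pi, h2]
    simp
  · obtain ⟨k, hk⟩ := ho
    rw [sg_odd ⟨k, hk⟩, hk, show ((2 * k + 1 : ℤ) : ℝ) * Real.pi = (k : ℝ) * (2 * Real.pi) +
      Real.pi by push_cast; ring, ← add_assoc, Real.sin_add_pi, Real.sin_add_int_mul_two_pi, h2]
    push_cast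
    ring

theorem cos_tr (g : HW) (p : E4) : Real.cos (2 * Real.pi * (g • p) 2) =
    (sg (g.t 2) : ℝ) * Real.cos (2 * Real.pi * p 2) := by
  have h1 : 2 * Real.pi * (g • p) 2 = (g.s 2 : ℝ) * (2 * Real.pi * p 2) + (g.t 2 : ℤ) * Real.pi := by
    rw [HW.smul_apply]
    simp only [HW.tr, Matrix.cons_val]
    ring
  rw [h1]
  have h2 : Real.cos ((g.s 2 : ℝ) * (2 * Real.pi * p 2)) = Real.cos (2 * Real.pi * p 2) := by
    rcases g.s_cases 2 with h | h <;> rw [h] <;> simp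
  rcases Int.even_or_odd (g.t 2) with he | ho
  · obtain ⟨k, hk⟩ := he
    rw [sg_even ⟨k, hk⟩, hk, show (((k + k : ℤ) : ℝ)) * Real.pi = (k : ℝ) * (2 * Real.pi) by
      push_cast; ring, Real.cos_add_int_mul_two_pi, h2]
    simp
  · obtain ⟨k, hk⟩ := ho
    rw [sg_odd ⟨k, hk⟩, hk, show ((2 * k + 1 : ℤ) : ℝ) * Real.pi = (k : ℝ) * (2 * Real.pi) +
      Real.pi by push_cast; ring, ← add_assoc, Real.cos_add_pi, Real.cos_add_int_mul_two_pi, h2]
    push_cast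
    ring

theorem sg_rel (g : HW) : sg (g.t 2) * sg (g.t 0) = sg (g.t 1) := by
  have h := g.ev
  have h1 : sg (g.t 0 + g.t 1 + g.t 2) = 1 := sg_even h
  rw [sg_add, sg_add] at h1
  have h2 := sg_mul_self (g.t 1)
  have : sg (g.t 2) * sg (g.t 0) = sg (g.t 2) * sg (g.t 0) * (sg (g.t 1) * sg (g.t 1)) := by
    rw [h2, mul_one]
  rw [this]
  linear_combination sg (g.t 1) * h1

theorem l1_A (g : HW) (v : E4) : l1 (g.A v) = chi g * l1 v := rfl

theorem l2_A (g : HW) (p v : E4) : l2 (g • p) (g.A v) = chi g * l2 p v := by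
  unfold l2
  rw [sin_tr, cos_tr, HW.A_apply, HW.A_apply, HW.s0, HW.s1]
  have h2 : ((sg (g.t 2) : ℤ) : ℝ) * sg (g.t 2) = 1 := by exact_mod_cast sg_mul_self (g.t 2)
  have h3 : ((sg (g.t 2) : ℤ) : ℝ) * sg (g.t 0) = sg (g.t 1) := by exact_mod_cast sg_rel g
  have h4 : (chi g : ℝ) = (g.s 2 : ℝ) := rfl
  have h5 : (g.s 2 : ℝ) = sg (g.t 1) := rfl
  rw [h4]
  linear_combination (g.s 2 : ℝ) * Real.sin (2 * Real.pi * p 2) * v 0 * h2 +
    Real.cos (2 * Real.pi * p 2) * v 1 * h3 - Real.cos (2 * Real.pi * p 2) * v 1 * h5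

theorem prod_s (g : HW) : ∏ i, (g.s i : ℝ) = 1 := by
  rw [Fin.prod_univ_four]
  have h3 : ((sg (g.t 2) : ℤ) : ℝ) * sg (g.t 0) = sg (g.t 1) := by exact_mod_cast sg_rel g
  have h2 : ((sg (g.t 1) : ℤ) : ℝ) * sg (g.t 1) = 1 := by exact_mod_cast sg_mul_self (g.t 1)
  simp only [HW.s0, HW.s1, HW.s2, HW.s3]
  rw [h3, h2]; simp

end Pool.Agent.T2h55.Engel
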