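import Pool.Agent.T2h55.Engel.Core

set_option autoImplicit false

open Set Filter Topology Manifold ContDiff VectorField

namespace Pool.Agent.T2h55.Engel

/-- first vector field -/
noncomputable def X₁ : E4 → E4 := fun _ => eb 2
/-- second vector field -/
noncomputable def X₂ : E4 → E4 := fun p =>
  Real.sin (2 * Real.pi * p 2) • eb 0 + Real.cos (2 * Real.pi * p 2) • eb 1
/-- their bracket -/
noncomputable def X₃ : E4 → E4 := fun p =>
  (2 * Real.pi * Real.cos (2 * Real.pi * p 2)) • eb 0 -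
    (2 * Real.pi * Real.sin (2 * Real.pi * p 2)) • eb 1

theorem eb_apply (i j : Fin 4) : (eb i) j = if j = i then 1 else 0 := by
  simp [eb, PiLp.single_apply]

theorem X₁_smooth : ContDiff ℝ ∞ X₁ := contDiff_const

theorem coord_smooth (j : Fin 4) : ContDiff ℝ ∞ fun y : E4 => y j :=
  contDiff_iff_contDiffAt.2 fun p => contDiffAt_coord j p

theorem X₂_smooth : ContDiff ℝ ∞ X₂ := by
  have h : ContDiff ℝ ∞ fun y : E4 => 2 * Real.pi * y 2 := contDiff_const.mul (coord_smooth 2)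
  exact ((Real.contDiff_sin.comp h).smul contDiff_const).add
    ((Real.contDiff_cos.comp h).smul contDiff_const)

theorem lie_X (p : E4) : lieBracket ℝ X₁ X₂ p = X₃ p := by
  have h : HasFDerivAt (fun y : E4 => 2 * Real.pi * y 2)
      ((2 * Real.pi) • (EuclideanSpace.proj 2 : E4 →L[ℝ] ℝ)) p :=
    ((EuclideanSpace.proj 2 : E4 →L[ℝ] ℝ).hasFDerivAt).const_mul _
  have h1 := (h.sin.smul_const (eb 0)).add (h.cos.smul_const (eb 1))
  have h2 : HasFDerivAt X₂ _ p := h1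
  rw [lieBracket_eq]
  simp only
  rw [h2.fderiv, show fderiv ℝ X₁ p = 0 from fderiv_const_apply _]
  simp [X₁, X₃, eb_apply]
  module

theorem A_X₁ (g : HW) (p : E4) : g.A (X₁ p) = (chi g : ℝ) • X₁ (g • p) := by
  ext j
  simp only [HW.A_apply, X₁, eb_apply, PiLp.smul_apply, smul_eq_mul]
  by_cases h : j = 2
  · subst h; simp [chi]
  · simp [h]

theorem A_X₂ (g : HW) (p : E4) : g.A (X₂ p) = (chi g : ℝ) • X₂ (g • p) := by
  have h3 : ((sg (g.t 2) : ℤ) : ℝ) * sg (g.t 0) = sg (g.t 1) := by exact_mod_cast sg_rel g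
  have h2 : ((sg (g.t 1) : ℤ) : ℝ) * sg (g.t 1) = 1 := by exact_mod_cast sg_mul_self (g.t 1)
  have h0 : ((sg (g.t 0) : ℤ) : ℝ) * sg (g.t 0) = 1 := by exact_mod_cast sg_mul_self (g.t 0)
  have h4 : (chi g : ℝ) = sg (g.t 1) := rfl
  have h6 : ((sg (g.t 2) : ℤ) : ℝ) * sg (g.t 2) = 1 := by exact_mod_cast sg_mul_self (g.t 2)
  ext j
  simp only [HW.A_apply, X₂, eb_apply, PiLp.smul_apply, PiLp.add_apply, smul_eq_mul, sin_tr, cos_tr]
  fin_cases j
  · simp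
    rw [h4]
    linear_combination (-Real.sin (2 * Real.pi * p 2) * (sg (g.t 2) : ℝ)) * h2
  · simp
    rw [h4]
    linear_combination (-Real.cos (2 * Real.pi * p 2) * (sg (g.t 0) : ℝ)) * h6 +
      Real.cos (2 * Real.pi * p 2) * (sg (g.t 2) : ℝ) * h3
  · simp
  · simp

/-- `ξ` upstairs -/
noncomputable def xi : PF := fun p => Submodule.span ℝ (range fun i : Fin 2 => ![X₁, X₂] i p)
/-- the line fields upstairs -/
noncomputable def la : PF := fun p => Submodule.span ℝ (range fun i : Fin 1 => ![X₁] i p)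
/-- the line fields upstairs -/
noncomputable def lb : PF := fun p => Submodule.span ℝ (range fun i : Fin 1 => ![X₂] i p)
/-- the foliation upstairs -/
noncomputable def fo : PF := fun _ =>
  LinearMap.ker (EuclideanSpace.proj 3 : E4 →L[ℝ] ℝ).toLinearMap

theorem mem_fo {p v : E4} : v ∈ fo p ↔ v 3 = 0 := Iff.rfl

theorem mem_xi {p v : E4} : v ∈ xi p ↔ ∃ a b : ℝ, v = a • X₁ p + b • X₂ p := by
  unfold xi
  rw [Submodule.mem_span_range_iff_exists_fun]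
  constructor
  · rintro ⟨c, rfl⟩
    exact ⟨c 0, c 1, by simp [Fin.sum_univ_two]⟩
  · rintro ⟨a, b, rfl⟩
    exact ⟨![a, b], by simp [Fin.sum_univ_two]⟩

theorem mem_la {p v : E4} : v ∈ la p ↔ ∃ a : ℝ, v = a • X₁ p := by
  unfold la
  rw [Submodule.mem_span_range_iff_exists_fun]
  constructor
  · rintro ⟨c, rfl⟩
    exact ⟨c 0, by simp⟩
  · rintro ⟨a, rfl⟩
    exact ⟨![a], by simp⟩

theorem mem_lb {p v : E4} : v ∈ lb p ↔ ∃ a : ℝ, v = a • X₂ p := by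
  unfold lb
  rw [Submodule.mem_span_range_iff_exists_fun]
  constructor
  · rintro ⟨c, rfl⟩
    exact ⟨c 0, by simp⟩
  · rintro ⟨a, rfl⟩
    exact ⟨![a], by simp⟩

theorem inv_of {D : PF} (h : ∀ (g : HW) (p v : E4), v ∈ D p → g.A v ∈ D (g • p)) :
    ∀ (g : HW) (p v : E4), v ∈ D p ↔ g.A v ∈ D (g • p) := by
  intro g p v
  refine ⟨h g p v, fun h1 => ?_⟩
  have h2 := h g⁻¹ _ _ h1
  rw [inv_smul_smul] at h2
  have h3 : g⁻¹.A (g.A v) = v := by
    ext i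
    rw [HW.A_apply, HW.A_apply, HW.inv_s, ← mul_assoc]
    have : ((g.s i : ℤ) : ℝ) * g.s i = 1 := by exact_mod_cast g.s_sq i
    rw [this, one_mul]
  rwa [h3] at h2

theorem inv_xi : ∀ (g : HW) (p v : E4), v ∈ xi p ↔ g.A v ∈ xi (g • p) := inv_of fun g p v h => by
  obtain ⟨a, b, rfl⟩ := mem_xi.1 h
  rw [map_add, map_smul, map_smul, A_X₁, A_X₂]
  exact mem_xi.2 ⟨a * chi g, b * chi g, by simp [smul_smul]⟩

theorem inv_la : ∀ (g : HW) (p v : E4), v ∈ la p ↔ g.A v ∈ la (g • p) := inv_of fun g p v h => by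
  obtain ⟨a, rfl⟩ := mem_la.1 h
  rw [map_smul, A_X₁]
  exact mem_la.2 ⟨a * chi g, by simp [smul_smul]⟩

theorem inv_lb : ∀ (g : HW) (p v : E4), v ∈ lb p ↔ g.A v ∈ lb (g • p) := inv_of fun g p v h => by
  obtain ⟨a, rfl⟩ := mem_lb.1 h
  rw [map_smul, A_X₂]
  exact mem_lb.2 ⟨a * chi g, by simp [smul_smul]⟩

theorem inv_fo : ∀ (g : HW) (p v : E4), v ∈ fo p ↔ g.A v ∈ fo (g • p) := inv_of fun g p v h => by
  rw [mem_fo] at h ⊢
  rw [HW.A_apply, h, mul_zero]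

theorem l1_X₁ (p : E4) : l1 (X₁ p) = 1 := by simp [l1, X₁, eb_apply]
theorem l2_X₁ (p : E4) : l2 p (X₁ p) = 0 := by simp [l2, X₁, eb_apply]
theorem l1_X₂ (p : E4) : l1 (X₂ p) = 0 := by simp [l1, X₂, eb_apply]
theorem l2_X₂ (p : E4) : l2 p (X₂ p) = 1 := by
  simp [l2, X₂, eb_apply]
  nlinarith [Real.sin_sq_add_cos_sq (2 * Real.pi * p 2)]

theorem li_X (p : E4) : LinearIndependent ℝ ![X₁ p, X₂ p] := by
  rw [LinearIndependent.pair_iff]
  intro a b h
  have h1 := congrArg l1 h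
  have h2 := congrArg (l2 p) h
  rw [l1_add, l1_smul, l1_smul, l1_X₁, l1_X₂] at h1
  rw [l2_add, l2_smul, l2_smul, l2_X₁, l2_X₂] at h2
  have z1 : l1 (0 : E4) = 0 := by simp [l1]
  have z2 : l2 p (0 : E4) = 0 := by simp [l2]
  rw [z1] at h1
  rw [z2] at h2
  exact ⟨by linarith, by linarith⟩

theorem pd_xi : PD 2 xi := fun p => ⟨![X₁, X₂], Eventually.of_forall fun y => by
  refine ⟨fun i => ?_, ?_, rfl⟩
  · fin_cases i
    · exact X₁_smooth.contDiffAt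
    · exact X₂_smooth.contDiffAt
  · have := pair_eq ![X₁, X₂] y
    rw [this]
    exact li_X y⟩

theorem X₁_ne (p : E4) : X₁ p ≠ 0 := by
  intro h
  have := congrArg l1 h
  rw [l1_X₁] at this
  simp [l1] at this

theorem X₂_ne (p : E4) : X₂ p ≠ 0 := by
  intro h
  have := congrArg (l2 p) h
  rw [l2_X₂] at this
  simp [l2] at this

theorem pd_la : PD 1 la := fun p => ⟨![X₁], Eventually.of_forall fun y => by
  refine ⟨fun i => ?_, ?_, rfl⟩
  · fin_cases i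
    exact X₁_smooth.contDiffAt
  · rw [linearIndependent_unique_iff]
    exact X₁_ne y⟩

theorem pd_lb : PD 1 lb := fun p => ⟨![X₂], Eventually.of_forall fun y => by
  refine ⟨fun i => ?_, ?_, rfl⟩
  · fin_cases i
    exact X₂_smooth.contDiffAt
  · rw [linearIndependent_unique_iff]
    exact X₂_ne y⟩

theorem transv_xi : Transv xi := by
  intro p v hv h1 h2
  obtain ⟨a, b, rfl⟩ := mem_xi.1 hv
  rw [l1_add, l1_smul, l1_smul, l1_X₁, l1_X₂] at h1
  rw [l2_add, l2_smul, l2_smul, l2_X₁, l2_X₂] at h2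
  have ha : a = 0 := by linarith
  have hb : b = 0 := by linarith
  rw [ha, hb]; simp

theorem fr_xi : Fr xi X₁ X₂ where
  m1 p := mem_xi.2 ⟨1, 0, by simp⟩
  m2 p := mem_xi.2 ⟨0, 1, by simp⟩
  a1 := l1_X₁
  a2 := l2_X₁
  b1 := l1_X₂
  b2 := l2_X₂

theorem pbr_xi : pbr xi = fo := by
  funext p
  rw [fr_xi.bracket_eq transv_xi X₁_smooth X₂_smooth p, lie_X]
  ext v
  rw [mem_fo, Submodule.mem_span_triple]
  constructor
  · rintro ⟨a, b, c, rfl⟩
    simp [X₁, X₂, X₃, eb_apply]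
  · intro h
    have hpi : Real.pi ≠ 0 := Real.pi_ne_zero
    have hsc := Real.sin_sq_add_cos_sq (2 * Real.pi * p 2)
    refine ⟨v 2, l2 p v, (Real.cos (2 * Real.pi * p 2) * v 0 -
      Real.sin (2 * Real.pi * p 2) * v 1) / (2 * Real.pi), ?_⟩
    ext j
    fin_cases j
    · simp [X₁, X₂, X₃, eb_apply, l2]
      field_simp
      linear_combination v 0 * hsc
    · simp [X₁, X₂, X₃, eb_apply, l2]
      field_simp
      linear_combination v 1 * hsc
    · simp [X₁, X₂, X₃, eb_apply]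
    · simp [X₁, X₂, X₃, eb_apply, h]

theorem xi_le_fo (p : E4) : xi p ≤ fo p := by
  intro v hv
  obtain ⟨a, b, rfl⟩ := mem_xi.1 hv
  rw [mem_fo]
  simp [X₁, X₂, eb_apply]

theorem la_inf_lb (p : E4) : la p ⊓ lb p = ⊥ := by
  rw [eq_bot_iff]
  rintro v ⟨h1, h2⟩
  obtain ⟨a, rfl⟩ := mem_la.1 h1
  obtain ⟨b, hb⟩ := mem_lb.1 h2
  have := congrArg l1 hb
  rw [l1_smul, l1_smul, l1_X₁, l1_X₂] at this
  have ha : a = 0 := by linarith
  simp [ha]

theorem la_sup_lb (p : E4) : la p ⊔ lb p = xi p := by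
  ext v
  rw [Submodule.mem_sup, mem_xi]
  constructor
  · rintro ⟨y, hy, z, hz, rfl⟩
    obtain ⟨a, rfl⟩ := mem_la.1 hy
    obtain ⟨b, rfl⟩ := mem_lb.1 hz
    exact ⟨a, b, rfl⟩
  · rintro ⟨a, b, rfl⟩
    exact ⟨_, mem_la.2 ⟨a, rfl⟩, _, mem_lb.2 ⟨b, rfl⟩, rfl⟩

/-- the orthogonality used for closeness -/
theorem norm_sub_ge {p v w : E4} (h1 : l1 v = 0) (h2 : l2 p v = 0) (hw : w ∈ xi p) :
    ‖v‖ ^ 2 ≤ ‖v - w‖ ^ 2 := by
  obtain ⟨a, b, rfl⟩ := mem_xi.1 hw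
  have hv : ∀ u : E4, ‖u‖ ^ 2 = u 0 ^ 2 + u 1 ^ 2 + u 2 ^ 2 + u 3 ^ 2 := by
    intro u
    rw [EuclideanSpace.norm_sq_eq, Fin.sum_univ_four]
    simp
  rw [hv, hv]
  simp [X₁, X₂, eb_apply]
  unfold l1 at h1
  unfold l2 at h2
  rw [h1]
  have h3 := sq_nonneg a
  have h4 := sq_nonneg (b * Real.sin (2 * Real.pi * p 2))
  have h5 := sq_nonneg (b * Real.cos (2 * Real.pi * p 2))
  have h6 : b * (Real.sin (2 * Real.pi * p 2) * v 0 + Real.cos (2 * Real.pi * p 2) * v 1) = 0 := by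
    rw [h2, mul_zero]
  nlinarith [h3, h4, h5, h6]

end Pool.Agent.T2h55.Engel
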